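import Pool.Agent.Lib.T94.Sep

set_option autoImplicit false

/-! First order bounds for `rmax`. -/

namespace Pool.Agent.Lib.T94

open Pool.Agent.Lib.MP_229ad9_gt Set Real Metric Module Filter Topology

variable {n m : ℕ} {ε δ c : ℝ}

lemma sq_sub (x y : ℝ) : sin x ^ 2 - sin y ^ 2 = sin (x - y) * sin (x + y) := by
  rw [sin_sub, sin_add]
  linear_combination (-sin x ^ 2) * sin_sq_add_cos_sq y + sin y ^ 2 * sin_sq_add_cos_sq x

lemma sin_b (hn : m ≤ n) : sin (arcsin √((m : ℝ) / n)) ^ 2 = m / n := by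
  rw [sin_arcsin (by linarith [sqrt_nonneg ((m : ℝ) / n)]) (sqrt_le_one.2
    (div_le_one_of_le₀ (by exact_mod_cast hn) (Nat.cast_nonneg _))), sq_sqrt (by positivity)]

def Sep (n m j : ℕ) (τ : ℝ) : Prop := ∃ A B : Set (Sph n), Transversal m A ∧ Transversal j B ∧
  ∀ a ∈ A, ∀ b ∈ B, inner ℝ (b : Euc n) a ≤ τ

lemma Sep.symm {j : ℕ} {τ : ℝ} (h : Sep n m j τ) : Sep n j m τ :=
  let ⟨A, B, h1, h2, h3⟩ := h
  ⟨B, A, h2, h1, fun a ha b hb => real_inner_comm (b : Euc n) a ▸ h3 b hb a ha⟩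

lemma Sep.lt {j : ℕ} {τ : ℝ} (h : Sep n m j τ) (hm : 1 ≤ m) (hn : m ≤ n)
    (hτ : τ < 1 - ε ^ 2 / 2) : rmax n m ε < j :=
  let ⟨_, _, h1, h2, h3⟩ := h
  rmax_lt hm hn h1 h2 h3 hτ

lemma Sep.lift {q k : ℕ} {τ : ℝ} (h : Sep q m k τ) (τ0 : 0 ≤ τ) (h1 : m ≤ q) (h2 : q ≤ n) :
    Sep n m (n - q + k) τ := by
  obtain ⟨A, B, hA, hB, h3⟩ := h
  obtain ⟨f⟩ : Nonempty (Euc q →ₗᵢ[ℝ] Euc n) := by
    obtain ⟨U, -, rfl⟩ := sub_dim (m := q) (⊤ : Submodule ℝ (Euc n)) (by simpa using h2)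
    exact ⟨U.subtypeₗᵢ.comp (stdOrthonormalBasis ℝ U).repr.symm.toLinearIsometry⟩
  set g := LinearMap.adjoint f.toLinearMap
  have ad (b y) : inner ℝ (f b) y = inner ℝ b (g y) := (LinearMap.adjoint_inner_right _ _ _).symm
  have g1 (y : Sph n) : ‖g y‖ ≤ 1 := by
    have := real_inner_le_norm (f (g y)) y
    rw [ad, real_inner_self_eq_norm_sq, f.norm_map, nrm1] at this
    nlinarith [norm_nonneg (g y)]
  refine ⟨{y | ∃ a ∈ A, g y = ‖g y‖ • (a : Euc _)}, {x | ∃ b ∈ B, (x : Euc n) = f b},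
    fun W hW => ?_, fun V hV => ?_, ?_⟩
  · by_cases hT : ∃ w ∈ W, w ≠ 0 ∧ g w = 0
    · obtain ⟨w, hw, w0, h⟩ := hT
      obtain ⟨a, ha⟩ := tr_ne hA h1
      exact ⟨un w w0, ⟨a, ha, by simp [un, h]⟩, W.smul_mem _ hw⟩
    have hd : finrank ℝ (W.map g) = m := by
      rw [← hW, ← LinearMap.range_domRestrict]
      refine LinearMap.finrank_range_of_inj ((injective_iff_map_eq_zero _).2 fun w h => ?_)
      by_contra h0
      exact hT ⟨w, w.2, by simpa using h0, h⟩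
    obtain ⟨a, ha, w, hw, e⟩ := hA _ hd
    have w0 : w ≠ 0 := fun h0 => by simpa [← e, h0] using nrm1 a
    exact ⟨un w w0, ⟨a, ha, by simp [un, e, norm_smul]⟩, W.smul_mem _ hw⟩
  · have e1 := (Submodule.equivMapOfInjective f.toLinearMap f.injective
      (V.comap f.toLinearMap)).finrank_eq
    have e2 := (LinearMap.range f.toLinearMap).finrank_sup_add_finrank_inf_eq V
    have e3 := (LinearMap.range f.toLinearMap ⊔ V).finrank_le
    rw [LinearMap.finrank_range_of_inj f.injective] at e2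
    rw [finrank_euclideanSpace_fin] at e2 e3
    rw [Submodule.map_comap_eq] at e1
    obtain ⟨V', hV', hd⟩ := sub_dim (m := k) (V.comap f.toLinearMap) (by omega)
    obtain ⟨b, hb, h⟩ := hB V' hd
    exact ⟨⟨f b, by simp⟩, ⟨b, hb, rfl⟩, hV' h⟩
  rintro y ⟨a, ha, e⟩ x ⟨b, hb, e'⟩
  rw [e', ad, e, real_inner_smul_right]
  exact (mul_le_mul_of_nonneg_left (h3 a ha b hb) (norm_nonneg _)).trans
    (mul_le_of_le_one_left τ0 (g1 y))

lemma sep_cap {k : ℕ} (hm : 1 ≤ m) (hn : m ≤ n) (hk : 1 ≤ k) (c0 : 0 ≤ c) (c1 : c ≤ 1)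
    (h : 1 - c ^ 2 + 2 / √(k + 1) < (m : ℝ) / n) : ∃ τ, 0 ≤ τ ∧ τ < c ∧ Sep n m k τ := by
  have s0 : 0 ≤ (√((k : ℝ) + 1))⁻¹ := by positivity
  have β0 := arcsin_nonneg.2 s0
  have β1 : arcsin (√((k : ℝ) + 1))⁻¹ ≤ 2 / √(k + 1) := by
    have := mul_le_sin β0 (arcsin_le_pi_div_two _)
    rw [sin_arcsin (by linarith) (inv_le_one_of_one_le₀ (one_le_sqrt.2 (by
      linarith [Nat.cast_nonneg (α := ℝ) k]))), div_mul_eq_mul_div, div_le_iff₀ pi_pos] at this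
    rw [div_eq_mul_inv]
    nlinarith [pi_le_four]
  have r0 := arccos_nonneg c
  have r1 : arccos c ≤ π / 2 := arccos_le_pi_div_two.2 c0
  have b0 : 0 ≤ arcsin √((m : ℝ) / n) := arcsin_nonneg.2 (sqrt_nonneg _)
  have b1 := arcsin_le_pi_div_two √((m : ℝ) / n)
  have e := sq_sub (arcsin √((m : ℝ) / n)) (arccos c)
  have hc := cos_arccos (x := c) (by linarith) c1
  rw [sin_b hn, sin_sq (arccos c), hc] at e
  set b := arcsin √((m : ℝ) / n)
  set β := arcsin (√((k : ℝ) + 1))⁻¹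
  have p0 := sin_nonneg_of_nonneg_of_le_pi (show 0 ≤ b + arccos c by linarith) (by linarith)
  have k1 : β < b - arccos c := by
    rcases le_total b (arccos c) with h1 | h1
    · nlinarith [sin_nonpos_of_nonpos_of_neg_pi_le (sub_nonpos.2 h1) (by linarith [pi_pos])]
    · nlinarith [sin_le (sub_nonneg.2 h1), sin_le_one (b + arccos c),
        sin_nonneg_of_nonneg_of_le_pi (sub_nonneg.2 h1) (by linarith [pi_pos])]
  refine ⟨cos (b - β), cos_nonneg_of_mem_Icc ⟨by linarith [pi_pos], by linarith⟩,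
    (cos_lt_cos_of_nonneg_of_le_pi r0 (by linarith [pi_pos]) (by linarith)).trans_eq hc, _,
    {x | ∀ i, (x : Euc n) i ≤ (√(k + 1))⁻¹}, caps hm hn, fun W hW => ?_, ?_⟩
  · obtain ⟨x, h1, h2⟩ := flat W hk hW
    exact ⟨x, h2, h1⟩
  rintro y ⟨i, hi⟩ x hx
  have e1 : ‖(ee i : Euc n)‖ = 1 := by simp
  have t := InnerProductGeometry.angle_le_angle_add_angle (x : Euc n) y (ee i)
  rw [ang _ _ (nrm1 x) e1, ang _ _ (nrm1 y) e1, ang _ _ (nrm1 x) (nrm1 y), inner_ee, inner_ee] at t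
  have t1 := arcsin_le_arcsin (hx i)
  have t2 := arcsin_le_arcsin hi
  have t3 := abs_le.1 (abs_real_inner_le_norm (x : Euc n) y)
  rw [nrm1, nrm1, mul_one] at t3
  rw [← cos_arccos t3.1 t3.2]
  refine cos_le_cos_of_nonneg_of_le_pi (by linarith) (arccos_le_pi _) ?_
  simp only [arccos] at t ⊢
  linarith

lemma dim_le (hm : 1 ≤ m) (hn : m < n) (ε2 : ε ^ 2 < 2) : (rmax n m ε : ℝ) ≤ n - m := by
  rw [← Nat.cast_sub hn.le]
  exact_mod_cast up_dim hm hn ε2 (good_rmax hm ε)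

theorem up_one {k : ℕ} (hn : m < n) (ε2 : ε ^ 2 < 2) (hc : c = 1 - ε ^ 2 / 2) (hk : 1 ≤ k)
    (h1 : k ≤ m) (h2 : 2 / √(k + 1) < δ) : (rmax n m ε : ℝ) ≤ (n - m) * (1 - c ^ 2 + δ) + k := by
  have mn : (m : ℝ) < n := by exact_mod_cast hn
  have k0 : (1 : ℝ) ≤ k := by exact_mod_cast hk
  have c0 : 0 < c := by linarith
  have c1 : c ≤ 1 := by nlinarith
  have δ0 : 0 < δ := lt_trans (by positivity) h2
  rcases le_total 1 (1 - c ^ 2 + δ) with h | h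
  · nlinarith [dim_le (by omega) hn ε2]
  have s0 : 0 < 1 - c ^ 2 + δ := by nlinarith
  have q0 : ((n - m + k : ℕ) : ℝ) = n - m + k := by rw [Nat.cast_add, Nat.cast_sub hn.le]
  have q1 : (0 : ℝ) < (n - m + k : ℕ) := by rw [q0]; linarith
  have j1 := Nat.le_ceil ((n - m + k : ℕ) * (1 - c ^ 2 + δ))
  have j2 := Nat.ceil_lt_add_one (mul_pos q1 s0).le
  have j3 := Nat.ceil_le.2 (mul_le_of_le_one_right q1.le h)
  obtain ⟨τ, τ0, τ1, hs⟩ := sep_cap (Nat.ceil_pos.2 (mul_pos q1 s0)) j3 hk c0.le c1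
    (lt_of_lt_of_le (by linarith) ((le_div_iff₀' q1).2 j1))
  have hs' := (hs.lift (n := n) τ0 j3 (by omega)).symm
  rw [show n - (n - m + k) + k = m by omega] at hs'
  have r : (rmax n m ε : ℝ) + 1 ≤ ⌈(n - m + k : ℕ) * (1 - c ^ 2 + δ)⌉₊ := by
    exact_mod_cast hs'.lt (by omega) hn.le (hc ▸ τ1)
  rw [q0] at j2 r
  nlinarith

theorem up_inv {k : ℕ} (hm : 1 ≤ m) (hn : m < n) (ε2 : ε ^ 2 < 2) (hc : c = 1 - ε ^ 2 / 2)
    (hk : 1 ≤ k) (h2 : 2 / √(k + 1) < δ) :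
    (rmax n m ε : ℝ) ≤ max 0 (n - m / (1 - c ^ 2 + δ)) + k := by
  have m0 : (0 : ℝ) < m := by exact_mod_cast hm
  have k0 : (0 : ℝ) ≤ k := Nat.cast_nonneg _
  have c0 : 0 < c := by linarith
  have c1 : c ≤ 1 := by nlinarith
  have δ0 : 0 < δ := lt_trans (by positivity) h2
  have s0 : 0 < 1 - c ^ 2 + δ := by nlinarith
  have x0 := le_max_left 0 (n - m / (1 - c ^ 2 + δ))
  have x1 := le_max_right 0 (n - m / (1 - c ^ 2 + δ))
  rcases le_total 1 (1 - c ^ 2 + δ) with h | h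
  · linarith [dim_le hm hn ε2, div_le_self m0.le h]
  have j1 := Nat.floor_le (div_pos m0 s0).le
  have j2 := Nat.lt_floor_add_one (m / (1 - c ^ 2 + δ))
  have j3 := Nat.le_floor (le_div_self m0.le s0 h)
  set q := min n ⌊m / (1 - c ^ 2 + δ)⌋₊ with hq
  have q1 : m ≤ q := le_min hn.le j3
  have q2 : (q : ℝ) ≤ m / (1 - c ^ 2 + δ) := le_trans (Nat.cast_le.2 (min_le_right _ _)) j1
  obtain ⟨τ, τ0, τ1, hs⟩ := sep_cap hm q1 hk c0.le c1 (lt_of_lt_of_le (by linarith)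
    ((le_div_comm₀ (Nat.cast_pos.2 (by omega)) s0).1 q2))
  have r : (rmax n m ε : ℝ) + 1 ≤ n - q + k := by
    rw [← Nat.cast_sub (min_le_left _ _)]
    exact_mod_cast (hs.lift (n := n) τ0 q1 (min_le_left _ _)).lt hm hn.le (hc ▸ τ1)
  rcases min_choice n ⌊m / (1 - c ^ 2 + δ)⌋₊ with e | e <;> rw [hq, e] at r <;> linarith

theorem low_sharp (hm : 1 ≤ m) (hn : m < n) (ε0 : 0 < ε) (ε2 : ε ^ 2 < 2) :
    n * sin (max 0 (arccos (1 - ε ^ 2 / 2) - arcsin √((m : ℝ) / n))) ^ 2 ≤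
      rmax n m ε + 1 + 7 * √n := by
  have n0 : (0 : ℝ) < n := by exact_mod_cast (by omega : 0 < n)
  have s0 := sqrt_pos.2 n0
  have r0 : (0 : ℝ) ≤ rmax n m ε := Nat.cast_nonneg _
  have r1 : arccos (1 - ε ^ 2 / 2) ≤ π / 2 := arccos_le_pi_div_two.2 (by linarith)
  have a0 : 0 ≤ arcsin √((m : ℝ) / n) := arcsin_nonneg.2 (sqrt_nonneg _)
  have d0 : 0 < 7 / √(n : ℝ) := by positivity
  have d1 : n * (7 / √(n : ℝ)) = 7 * √n := by
    rw [mul_div_assoc', mul_comm, mul_div_assoc, div_sqrt]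
  set θ := max 0 (arccos (1 - ε ^ 2 / 2) - arcsin √((m : ℝ) / n)) with hθ
  have θ0 : 0 ≤ θ := le_max_left _ _
  have θ1 : θ ≤ π / 2 := max_le (by positivity) (by linarith)
  have lip (y : ℝ) (h : y ≤ θ) (h0 : 0 ≤ y) : sin θ ^ 2 ≤ sin y ^ 2 + (θ - y) := by
    nlinarith [sq_sub θ y, sin_le (sub_nonneg.2 h), sin_le_one (θ + y),
      sin_nonneg_of_nonneg_of_le_pi (sub_nonneg.2 h) (by linarith [pi_pos])]
  rcases le_or_gt θ (7 / √n) with h | h
  · have := lip 0 θ0 le_rfl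
    rw [sin_zero] at this
    nlinarith [mul_le_mul_of_nonneg_left h n0.le]
  have e : θ = arccos (1 - ε ^ 2 / 2) - arcsin √((m : ℝ) / n) :=
    max_eq_right (by by_contra hc; rw [hθ, max_eq_left (not_le.1 hc).le] at h; linarith)
  have l := mul_le_mul_of_nonneg_left (lip (θ - 7 / √n) (by linarith) (by linarith)) n0.le
  have y0 : 0 ≤ sin (θ - 7 / √n) :=
    sin_nonneg_of_nonneg_of_le_pi (by linarith) (by linarith [pi_pos])
  have y1 : sin (θ - 7 / √n) < 1 := by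
    rw [← sin_pi_div_two]
    exact sin_lt_sin_of_lt_of_le_pi_div_two (by linarith [pi_pos]) le_rfl (by linarith)
  have j1 := Nat.floor_le (show 0 ≤ n * sin (θ - 7 / √n) ^ 2 by positivity)
  have j2 := Nat.lt_floor_add_one (n * sin (θ - 7 / √n) ^ 2)
  set j := ⌊n * sin (θ - 7 / √n) ^ 2⌋₊
  suffices (j : ℝ) ≤ rmax n m ε by nlinarith
  rcases Nat.eq_zero_or_pos j with h0 | h0
  · rw [h0, Nat.cast_zero]; exact r0
  have j4 : (j : ℝ) < n := j1.trans_lt (mul_lt_of_lt_one_right n0 (pow_lt_one₀ y0 y1 two_ne_zero))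
  have k3 : arcsin √((j : ℝ) / n) ≤ θ - 7 / √n :=
    (arcsin_le_iff_le_sin' ⟨by linarith [pi_pos], by linarith⟩).2
      (sqrt_le_iff.2 ⟨y0, (div_le_iff₀' n0).2 j1⟩)
  exact_mod_cast le_rmax hm (low_conc hm hn ε0.le ε2.le h0 (by exact_mod_cast j4) (by linarith))

theorem up_two (hm : 1 ≤ m) (hn : m < n) (ε2 : ε ^ 2 < 2) (hc : c = 1 - ε ^ 2 / 2) (δ0 : 0 < δ)
    (δ1 : δ ≤ 1) (H : 44 * n * log n ≤ (δ ^ 3 / 100 * n) ^ 2) (h1 : δ / 4 * n ≤ m)
    (h2 : δ ≤ 1 - (m : ℝ) / n) :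
    (rmax n m ε : ℝ) ≤ n * (max 0 (1 - c ^ 2 / (1 - m / n)) + δ / 2) := by
  have n0 : (0 : ℝ) < n := by exact_mod_cast (by omega : 0 < n)
  set β := max 0 (1 - c ^ 2 / (1 - m / n)) + δ / 2 with hβ
  have β0 : δ / 2 ≤ β := le_add_of_nonneg_left (le_max_left _ _)
  rcases le_total 1 β with β1 | β1
  · have : (rmax n m ε : ℝ) ≤ n := by exact_mod_cast good_le hm (good_rmax hm ε)
    nlinarith
  obtain ⟨N, u, hu⟩ := fam (n := n) (by omega) (by positivity) H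
  set τ := δ ^ 3 / 100 with hτ
  have τ0 : 0 < τ := by positivity
  have d2 : δ ^ 2 ≤ δ := by nlinarith
  have d3 : δ ^ 3 ≤ δ ^ 2 := by nlinarith [pow_pos δ0 2]
  set α := (m : ℝ) / n with hα
  have α0 : δ / 4 ≤ α := (le_div_iff₀ n0).2 h1
  have α1 : α * n = m := div_mul_cancel₀ _ n0.ne'
  have p2 := sq_sqrt (show 0 ≤ α - 2 * τ by linarith)
  have p2' := sq_sqrt (show 0 ≤ β - 2 * τ by linarith)
  have p1 : δ / 4 ≤ √(α - 2 * τ) := le_sqrt_of_sq_le (by linarith)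
  have p1' : δ / 4 ≤ √(β - 2 * τ) := le_sqrt_of_sq_le (by linarith)
  have q1 (p : ℝ) (h : δ / 4 ≤ p) : 2 * (τ * n) ≤ 2 * δ ^ 2 / 25 * p * n := by
    nlinarith [mul_le_mul_of_nonneg_left h (show 0 ≤ δ ^ 2 * n by positivity)]
  have j1 := Nat.le_ceil (β * n)
  have j2 := Nat.ceil_lt_add_one (show 0 ≤ β * n from mul_nonneg (by linarith) n0.le)
  have c0 : 0 < c := by linarith
  have c1 : c ≤ 1 := by nlinarith
  have z : (1 - α) * (1 - β) + δ ^ 2 / 2 ≤ c ^ 2 := by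
    have h3 : 1 - c ^ 2 / (1 - α) + δ / 2 ≤ β := add_le_add_left (le_max_right _ _) _
    have h4 : (1 - α) * (c ^ 2 / (1 - α)) = c ^ 2 := mul_div_cancel₀ _ (by linarith)
    nlinarith [mul_le_mul_of_nonneg_left h3 (show 0 ≤ 1 - α by linarith)]
  have z0 : 0 ≤ (1 - α) * (1 - β) := mul_nonneg (by linarith) (by linarith)
  have r : (rmax n m ε : ℝ) + 1 ≤ ⌈β * n⌉₊ := by
    refine mod_cast sep_two hm hn.le hu (by positivity) (by linarith) (by linarith)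
      (by rw [p2]; linarith) (by rw [p2']; linarith) (q1 _ p1) (q1 _ p1') ?_
    rw [p2, p2', ← hc, mul_div_cancel_right₀ _ n0.ne', add_assoc, ← lt_sub_iff_add_lt,
      sqrt_lt' (by nlinarith)]
    nlinarith [sq_nonneg (2 * (2 * δ ^ 2 / 25) + τ), pow_pos δ0 2]
  linarith

theorem asym (δ0 : 0 < δ) : ∃ m₀ : ℕ, ∀ (n m : ℕ) (ε α σ : ℝ), m₀ ≤ m → m < n → 0 < ε →
    ε ^ 2 < 2 → α = m / n → σ = 1 - (1 - ε ^ 2 / 2) ^ 2 →
    n * (sin (max 0 (arcsin √σ - arcsin √α)) ^ 2 - δ) ≤ rmax n m ε ∧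
    (rmax n m ε : ℝ) ≤ n * (min ((1 - α) * σ) (max 0 (σ - α) / max σ (1 - α)) + δ) := by
  wlog δ1 : δ ≤ 1 generalizing δ
  · obtain ⟨m₀, h⟩ := this one_pos le_rfl
    refine ⟨m₀, fun n m ε α σ a b c d e f =>
      ⟨le_trans ?_ (h n m ε α σ a b c d e f).1, (h n m ε α σ a b c d e f).2.trans ?_⟩⟩ <;>
      exact mul_le_mul_of_nonneg_left (by linarith) (Nat.cast_nonneg _)
  refine ⟨⌈(88 / (δ ^ 3 / 100) ^ 2) ^ 2⌉₊, fun n m ε α σ h hn ε0 ε2 hα hσ => ?_⟩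
  have d3 : δ ^ 3 ≤ 1 := pow_le_one₀ δ0.le δ1
  have k0 : 100 / δ ^ 3 ≤ 88 / (δ ^ 3 / 100) ^ 2 := by
    rw [div_le_div_iff₀ (by positivity) (by positivity)]
    nlinarith [pow_pos δ0 3]
  have k1 : 100 ≤ 100 / δ ^ 3 := le_div_self (by norm_num) (by positivity) d3
  have k2 : 88 / (δ ^ 3 / 100) ^ 2 ≤ √m := le_sqrt_of_sq_le (Nat.ceil_le.1 h)
  have m0 : (0 : ℝ) < m := sqrt_pos.1 (by linarith)
  have hm : 1 ≤ m := by exact_mod_cast m0
  have mn : (m : ℝ) < n := by exact_mod_cast hn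
  have n0 : (0 : ℝ) < n := by linarith
  have k3 : √(m : ℝ) ≤ √n := sqrt_le_sqrt mn.le
  have s2 := sq_sqrt n0.le
  have d2 : δ ^ 3 ≤ δ := by nlinarith [pow_le_one₀ δ0.le δ1 (n := 2)]
  have k4 : 100 ≤ √m * δ ^ 3 := (div_le_iff₀ (by positivity)).1 (by linarith)
  have k5 : 100 ≤ √n * δ := by nlinarith [sqrt_nonneg (m : ℝ)]
  obtain ⟨c, hc⟩ : ∃ c, c = 1 - ε ^ 2 / 2 := ⟨_, rfl⟩
  have e0 := pow_pos ε0 2
  have c0 : 0 < c := by linarith
  have σ0 : 0 < σ := by nlinarith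
  have σ1 : σ ≤ 1 := by nlinarith
  have α0 : 0 < α := by rw [hα]; positivity
  have α1 : n * α = m := by rw [hα]; field_simp
  have α2 : α < 1 := by nlinarith
  refine ⟨?_, ?_⟩
  · have := low_sharp hm hn ε0 ε2
    rw [arccos_eq_arcsin (by linarith), ← hσ, ← hα] at this
    nlinarith
  rw [← hc] at hσ
  obtain ⟨k, hk, q1, q2⟩ : ∃ k : ℕ, 1 ≤ k ∧ (k : ℝ) ≤ δ / 4 * m ∧ 2 / √(k + 1) < δ ^ 2 / 8 := by
    have j1 := Nat.le_ceil (256 / δ ^ 4)
    have j2 := Nat.ceil_lt_add_one (show 0 ≤ 256 / δ ^ 4 by positivity)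
    refine ⟨⌈256 / δ ^ 4⌉₊, Nat.ceil_pos.2 (by positivity), j2.le.trans ?_, ?_⟩
    · have := pow_le_pow_left₀ (by norm_num) k4 2
      rw [mul_pow, sq_sqrt m0.le] at this
      rw [div_add_one (by positivity), div_le_iff₀ (by positivity)]
      nlinarith [pow_le_one₀ δ0.le δ1 (n := 4),
        mul_le_mul_of_nonneg_left δ1 (show 0 ≤ m * δ ^ 5 by positivity)]
    · rw [div_lt_iff₀ (by positivity), ← div_lt_iff₀' (by positivity), lt_sqrt (by positivity),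
        show (2 / (δ ^ 2 / 8)) ^ 2 = 256 / δ ^ 4 by field_simp; norm_num]
      linarith
  have d4 : δ ^ 2 ≤ δ := by nlinarith
  have u1 := up_one hn ε2 hc hk (by
    have : (k : ℝ) ≤ m := by nlinarith
    exact_mod_cast this) q2
  have u2 := up_inv hm hn ε2 hc hk q2
  rw [← hσ] at u1 u2
  have t3 : (rmax n m ε : ℝ) ≤ n * ((1 - α) * σ + δ / 2) := by nlinarith
  have x0 := le_max_left 0 (σ - α)
  have x1 := le_max_right 0 (σ - α)
  rw [← min_add_add_right, mul_min_of_nonneg _ _ n0.le]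
  refine le_min (by nlinarith) ?_
  rcases le_total σ (δ / 2) with h1 | h1
  · refine t3.trans (mul_le_mul_of_nonneg_left ?_ n0.le)
    nlinarith [div_nonneg x0 (σ0.le.trans (le_max_left σ (1 - α)))]
  rcases max_choice σ (1 - α) with e | e <;> rw [e]
  · have y0 := div_nonneg x0 σ0.le
    have y1 : max 0 (σ - α) / σ * σ = max 0 (σ - α) := div_mul_cancel₀ _ σ0.ne'
    have y2 : n - m / (σ + δ ^ 2 / 8) ≤ n * (max 0 (σ - α) / σ + δ / 4) := by
      rw [← α1, mul_div_assoc, ← mul_one_sub]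
      refine mul_le_mul_of_nonneg_left ?_ n0.le
      rw [one_sub_div (by positivity), div_le_iff₀ (by positivity)]
      nlinarith [mul_nonneg y0 (sq_nonneg δ), pow_pos δ0 3]
    have := max_le (mul_nonneg n0.le (by linarith)) y2
    nlinarith
  have y0 := div_nonneg x0 (sub_pos.2 α2).le
  rcases le_total (1 - α) δ with h2 | h2
  · nlinarith [dim_le hm hn ε2]
  rcases le_total (δ / 4) α with h3 | h3
  · refine (up_two hm hn ε2 hc δ0 δ1 ?_ (by nlinarith) (hα ▸ h2)).trans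
      (mul_le_mul_of_nonneg_left ?_ n0.le)
    · have l : log n ≤ 2 * √n := by
        have := log_le_sub_one_of_pos (sqrt_pos.2 n0)
        rw [log_sqrt n0.le] at this
        linarith
      have k6 := mul_le_mul_of_nonneg_left ((div_le_iff₀ (by positivity)).1 (k2.trans k3))
        (show 0 ≤ n * √n by positivity)
      rw [← mul_assoc, mul_assoc (n : ℝ) √n √n, ← sq, s2] at k6
      linarith [mul_le_mul_of_nonneg_left l n0.le]
    · rw [← hα, one_sub_div (by linarith)]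
      linarith [max_le y0 (div_le_div_of_nonneg_right
        (show 1 - α - c ^ 2 ≤ max 0 (σ - α) by linarith) (sub_pos.2 α2).le)]
  refine t3.trans (mul_le_mul_of_nonneg_left ?_ n0.le)
  nlinarith [le_div_self x0 (sub_pos.2 α2) (by linarith)]

end Pool.Agent.Lib.T94
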