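import Pool.Agent.Lib.MP_229ad9_gt.Defs

set_option autoImplicit false

namespace Pool.Agent.Lib.T94

open Pool.Agent.Lib.MP_229ad9_gt

/-- The largest `r` such that the neighbourhood of every `m`-transversal set contains the unit
sphere of some `r`-dimensional subspace. -/
noncomputable def rmax (n m : ℕ) (ε : ℝ) : ℕ :=
  sSup {r | ∀ A : Set (Sph n), Transversal m A → ∃ W : Submodule ℝ (Euc n),
    Module.finrank ℝ W = r ∧ ∀ x : Sph n, (x : Euc n) ∈ W → x ∈ nbhd A ε}

end Pool.Agent.Lib.T94
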