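import Pool.Agent.Lib.T94.Up

set_option autoImplicit false

/-! Lower bounds for `rmax`. -/

namespace Pool.Agent.Lib.T94

open Pool.Agent.Lib.MP_229ad9_gt Set Real Metric Module InnerProductGeometry MeasureTheory

variable {n m : ℕ}

lemma frame {A : Set (Sph n)} (hA : Transversal m A) (hn : m ≤ n) (t : ℕ) (ht : t ≤ n - m + 1) :
    ∃ a : Fin t → Sph n, (∀ i, a i ∈ A) ∧ Orthonormal ℝ fun i => (a i : Euc n) := by
  induction t with
  | zero => exact ⟨Fin.elim0, fun i => i.elim0, orthonormal_iff_ite.2 fun i => i.elim0⟩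
  | succ t ih =>
    obtain ⟨a, ha, ho⟩ := ih (by omega)
    set U := Submodule.span ℝ (range fun i => (a i : Euc n)) with hU
    have h1 : finrank ℝ U = t := by
      rw [hU, finrank_span_eq_card ho.linearIndependent, Fintype.card_fin]
    have h2 := U.finrank_add_finrank_orthogonal
    rw [finrank_euclideanSpace_fin] at h2
    obtain ⟨V, hV, hd⟩ := sub_dim (m := m) Uᗮ (by omega)
    obtain ⟨b, hb, hbV⟩ := hA V hd
    have h3 (i) : inner ℝ (a i : Euc n) b = 0 :=
      Submodule.inner_right_of_mem_orthogonal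
        (show (a i : Euc n) ∈ U from Submodule.subset_span ⟨i, rfl⟩) (hV hbV)
    refine ⟨Fin.cons b a, fun i => Fin.cases hb ha i, fun i => nrm1 _, fun i j hij => ?_⟩
    induction i using Fin.cases with
    | zero =>
      induction j using Fin.cases with
      | zero => exact absurd rfl hij
      | succ j => simpa [real_inner_comm] using h3 j
    | succ i =>
      induction j using Fin.cases with
      | zero => simpa using h3 i
      | succ j => simpa using ho.2 fun h => hij (congrArg _ h)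

theorem low_frame (hn : m ≤ n) {ε : ℝ} (ε0 : 0 ≤ ε) {j : ℕ} (h1 : 2 * j ≤ n - m + 1)
    (h2 : 2 * j * (1 - ε ^ 2 / 2) ^ 2 ≤ 1) : Good n m ε j := by
  intro A hA
  obtain ⟨a0, ha, ho0⟩ := frame hA hn (j + j) (by omega)
  set a : Fin j ⊕ Fin j → Sph n := fun i => a0 (finSumFinEquiv i) with had
  have ho : Orthonormal ℝ fun i => (a i : Euc n) := ho0.comp _ finSumFinEquiv.injective
  have ip := orthonormal_iff_ite.1 ho
  set v : Fin j → Euc n := fun i => (a (.inl i) : Euc n) - a (.inr i) with hv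
  have e1 (l : Fin j → ℝ) (k) : inner ℝ (∑ i, l i • v i) (a (.inl k) : Euc n) = l k := by
    simp [sum_inner, real_inner_smul_left, hv, inner_sub_left, ip]
  have e2 (l : Fin j → ℝ) (k) : inner ℝ (∑ i, l i • v i) (a (.inr k) : Euc n) = -l k := by
    simp [sum_inner, real_inner_smul_left, hv, inner_sub_left, ip]
  have li : LinearIndependent ℝ v := Fintype.linearIndependent_iff.2 fun l hl k => by
    rw [← e1 l k, hl, inner_zero_left]
  refine ⟨Submodule.span ℝ (range v), by rw [finrank_span_eq_card li, Fintype.card_fin],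
    fun x hx => ?_⟩
  obtain ⟨l, hl⟩ := (Submodule.mem_span_range_iff_exists_fun ℝ).1 hx
  have e3 : ∑ k, 2 * l k ^ 2 = 1 := by
    have := real_inner_self_eq_norm_sq (x : Euc n)
    rw [nrm1, one_pow] at this
    rw [← this]
    nth_rewrite 2 [← hl]
    rw [_root_.inner_sum]
    refine Finset.sum_congr rfl fun k _ => ?_
    rw [real_inner_smul_right, hv, inner_sub_right, ← hl, e1, e2]; ring
  have j0 : 0 < j := by
    rcases Nat.eq_zero_or_pos j with rfl | h
    · simp at e3
    · exact h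
  obtain ⟨k, -, hk⟩ := Finset.exists_le_of_sum_le (s := Finset.univ)
    (f := fun _ : Fin j => 2 * (1 - ε ^ 2 / 2) ^ 2) (g := fun k => 2 * l k ^ 2)
    ⟨⟨0, j0⟩, Finset.mem_univ _⟩ (by
      rw [e3, Finset.sum_const, Finset.card_univ, Fintype.card_fin, nsmul_eq_mul]; linarith)
  have h3 : 1 - ε ^ 2 / 2 ≤ |l k| := (le_abs_self _).trans (sq_le_sq.1 (by linarith))
  rcases le_total 0 (l k) with h | h
  · exact near ε0 (ha _) (a := a (.inl k)) (by rw [← hl, e1, ← abs_of_nonneg h]; exact h3)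
  · exact near ε0 (ha _) (a := a (.inr k)) (by rw [← hl, e2, ← abs_of_nonpos h]; exact h3)

/-! ### fourth moments on the sphere -/

noncomputable def M4 (u : Euc n) : ℝ := ∫ x : Sph n, inner ℝ u (x : Euc n) ^ 4 ∂PP n

lemma M4_eq {u v : Euc n} (h : ‖u‖ = ‖v‖) : M4 u = M4 v := by
  set R := Submodule.reflection (ℝ ∙ (u - v))ᗮ with hR
  have e : R u = v := Submodule.reflection_sub h
  rw [M4, M4, ← int_iso R fun x => inner ℝ v (x : Euc n) ^ 4, ← e]
  simp only [sm_coe, LinearIsometryEquiv.inner_map_map]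

lemma M4_smul (c : ℝ) (u : Euc n) : M4 (c • u) = c ^ 4 * M4 u := by
  simp only [M4, real_inner_smul_left, mul_pow, integral_const_mul]

lemma ie (i : Fin n) (x : Euc n) : inner ℝ (ee i) x = x i := by rw [real_inner_comm, inner_ee]

lemma mom (k i j : Fin n) : ∫ x : Sph n, (x : Euc n) i ^ 2 * (x : Euc n) j ^ 2 ∂PP n =
    M4 (ee k) / 3 * (1 + if i = j then 2 else 0) := by
  have e (i : Fin n) : M4 (ee i) = M4 (ee k) := M4_eq (by simp)
  split_ifs with h
  · subst h
    rw [← e i, M4]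
    simp only [ie, ← pow_add]
    ring
  have o : inner ℝ (ee i) (ee j : Euc n) = 0 := by simp [ie, h]
  have n2 : ‖(√2 : ℝ) • (ee k : Euc n)‖ ^ 2 = 2 := by
    simp [norm_smul]
  have s4 : (√2 : ℝ) ^ 4 = 4 := by
    rw [show (4 : ℕ) = 2 * 2 from rfl, pow_mul, sq_sqrt zero_le_two]; norm_num
  have p : M4 (ee i + ee j) = 4 * M4 (ee k) := by
    rw [← s4, ← M4_smul]
    refine M4_eq ((sq_eq_sq₀ (norm_nonneg _) (norm_nonneg _)).1 ?_)
    rw [n2, norm_add_sq_real, o]; simp; norm_num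
  have q : M4 (ee i - ee j) = 4 * M4 (ee k) := by
    rw [← s4, ← M4_smul]
    refine M4_eq ((sq_eq_sq₀ (norm_nonneg _) (norm_nonneg _)).1 ?_)
    rw [n2, norm_sub_sq_real, o]; simp; norm_num
  have r : M4 (ee i + ee j) + M4 (ee i - ee j) = 2 * M4 (ee i) + 2 * M4 (ee j) +
      12 * ∫ x : Sph n, (x : Euc n) i ^ 2 * (x : Euc n) j ^ 2 ∂PP n := by
    simp only [M4, inner_add_left, inner_sub_left, ie, ← integral_const_mul]
    rw [← integral_add, ← integral_add, ← integral_add]
    · exact integral_congr_ae (.of_forall fun x => by ring)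
    all_goals exact cont_int _ (by fun_prop)
  rw [p, q, e i, e j] at r
  linarith

lemma quad4 (k : Fin n) (w : Fin n → ℝ) :
    ∫ x : Sph n, (∑ i, w i * (x : Euc n) i ^ 2) ^ 2 ∂PP n =
      M4 (ee k) / 3 * ((∑ i, w i) ^ 2 + 2 * ∑ i, w i ^ 2) := by
  have e (x : Sph n) : (∑ i, w i * (x : Euc n) i ^ 2) ^ 2 =
      ∑ i, ∑ j, w i * w j * ((x : Euc n) i ^ 2 * (x : Euc n) j ^ 2) := by
    rw [sq, Finset.sum_mul_sum]
    exact Finset.sum_congr rfl fun i _ => Finset.sum_congr rfl fun j _ => by ring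
  simp only [e]
  rw [integral_finsetSum _ fun i _ => cont_int _ (by fun_prop)]
  rw [Finset.sum_congr rfl fun i _ => integral_finsetSum _ fun j _ => cont_int _ (by fun_prop)]
  simp only [integral_const_mul, mom k]
  rw [sq, Finset.sum_mul_sum, Finset.mul_sum, ← Finset.sum_add_distrib, Finset.mul_sum]
  refine Finset.sum_congr rfl fun i _ => ?_
  simp only [mul_add, mul_ite, mul_zero, Finset.sum_add_distrib, Finset.sum_ite_eq,
    Finset.mem_univ, if_true, Finset.mul_sum]
  congr 1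
  · exact Finset.sum_congr rfl fun j _ => by ring
  · ring

lemma sq1 (x : Sph n) : ∑ i, (x : Euc n) i ^ 2 = 1 := by
  rw [← EuclideanSpace.real_norm_sq_eq, nrm1, one_pow]

lemma big (hm : 1 ≤ m) (hn : m < n) {A : Set (Sph n)} (hA : Transversal m A) {θ : ℝ}
    (h1 : arcsin √((m : ℝ) / n) + 3.2 / √n ≤ θ) (h2 : θ ≤ π / 2) :
    1 / 2 < sig (nbhd A √(2 - 2 * cos θ)) := by
  classical
  have n0 : (0 : ℝ) < n := by exact_mod_cast (by omega : 0 < n)
  have m0 : (0 : ℝ) < m := by exact_mod_cast hm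
  have mn : (m : ℝ) < n := by exact_mod_cast hn
  set a := arcsin √((m : ℝ) / n) with ha
  have sa : sin a = √((m : ℝ) / n) := sin_arcsin (by linarith [sqrt_nonneg ((m : ℝ) / n)])
    (sqrt_le_one.2 ((div_le_one n0).2 mn.le))
  have sa2 : sin a ^ 2 = m / n := by rw [sa, sq_sqrt (by positivity)]
  have ca2 : cos a ^ 2 = 1 - m / n := by rw [cos_sq', sa2]
  have a0 : 0 ≤ a := arcsin_nonneg.2 (sqrt_nonneg _)
  have sn : 0 < √(n : ℝ) := sqrt_pos.2 n0
  have d0 : 0 < 3.2 / √(n : ℝ) := by positivity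
  have c0 : 0 ≤ cos θ := cos_nonneg_of_mem_Icc ⟨by linarith [pi_pos], h2⟩
  have ca : 0 ≤ cos a := cos_nonneg_of_mem_Icc ⟨by linarith [pi_pos], by linarith⟩
  have st : sin a < sin θ := sin_lt_sin_of_lt_of_le_pi_div_two (by linarith [pi_pos]) h2
    (by linarith)
  have s0 : 0 ≤ sin a := by rw [sa]; positivity
  set t := sin θ ^ 2 - sin a ^ 2 with ht
  have t0 : 0 < t := by nlinarith
  have sd : 2 / √(n : ℝ) ≤ sin (θ - a) := by
    refine le_trans ?_ (mul_le_sin (by linarith) (by linarith))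
    refine le_trans ?_ (mul_le_mul_of_nonneg_left (show 3.2 / √(n : ℝ) ≤ θ - a by linarith)
      (by positivity))
    rw [div_mul_div_comm, div_le_div_iff₀ sn (by positivity)]
    nlinarith [pi_lt_d2]
  have t1 : 2 / √(n : ℝ) * (sin a * cos a) ≤ t := by
    have e : t = sin (θ - a) * (sin θ * cos a + cos θ * sin a) := by
      rw [ht, sin_sub]
      linear_combination (-sin θ ^ 2) * sin_sq_add_cos_sq a + sin a ^ 2 * sin_sq_add_cos_sq θ
    rw [e]
    refine mul_le_mul sd ?_ (by positivity) (le_trans (by positivity) sd)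
    nlinarith [mul_nonneg c0 s0, mul_le_mul_of_nonneg_right st.le ca]
  have t2 : 4 / n * (m / n * (1 - m / n)) ≤ t ^ 2 := by
    refine le_trans (le_of_eq ?_) (pow_le_pow_left₀ (by positivity) t1 2)
    rw [mul_pow, mul_pow, div_pow, sq_sqrt n0.le, sa2, ca2]; norm_num
  have e0 : (0 : ℝ) ≤ 2 - 2 * cos θ := by linarith [cos_le_one θ]
  refine lt_of_lt_of_le ?_ (sig_half_le hm hn.le hA (sqrt_nonneg _))
  obtain ⟨n', rfl⟩ : ∃ j, n = j + 1 := ⟨n - 1, by omega⟩
  set n := n' + 1 with hn'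
  have Z0 := sph_pos (volume : Measure (Euc n))
  set w : Fin n → ℝ := fun i => (1 - (m : ℝ) / n) - if (i : ℕ) < n - m then 1 else 0 with hw
  have cd : ∑ i : Fin n, (if (i : ℕ) < n - m then (1 : ℝ) else 0) = n - m := by
    rw [Finset.sum_boole, ← Fintype.card_subtype, Fintype.card_fin_lt_of_le (by omega),
      Nat.cast_sub hn.le]
  have w1 : ∑ i, w i = 0 := by
    rw [hw, Finset.sum_sub_distrib, cd]; simp; field_simp; ring
  have w2 : ∑ i, w i ^ 2 = n * (m / n * (1 - m / n)) := by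
    have : ∀ i, w i ^ 2 = (1 - (m : ℝ) / n) ^ 2 +
        (1 - 2 * (1 - (m : ℝ) / n)) * if (i : ℕ) < n - m then 1 else 0 := fun i => by
      simp only [hw]; split_ifs <;> ring
    simp only [this, Finset.sum_add_distrib, ← Finset.mul_sum, cd, Finset.sum_const,
      Finset.card_univ, Fintype.card_fin, nsmul_eq_mul]
    field_simp; ring
  have q1 := quad4 (0 : Fin n) fun _ => 1
  simp only [one_mul, sq1, one_pow, integral_const, smul_eq_mul, mul_one, Finset.sum_const,
    Finset.card_univ, Fintype.card_fin, nsmul_eq_mul] at q1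
  have q2 := quad4 (0 : Fin n) w
  rw [w1, w2] at q2
  have ch := mul_meas_ge_le_integral_of_nonneg (μ := PP n)
    (f := fun x : Sph n => (∑ i, w i * (x : Euc n) i ^ 2) ^ 2) (.of_forall fun x => sq_nonneg _)
    (cont_int _ (by fun_prop)) (t ^ 2)
  have sub : (nbhd (half n (n - m)) √(2 - 2 * cos θ))ᶜ ⊆
      {x : Sph n | t ^ 2 ≤ (∑ i, w i * (x : Euc n) i ^ 2) ^ 2} := fun x hx => by
    refine pow_le_pow_left₀ t0.le ?_ 2
    by_contra hc
    obtain ⟨y, hy, h⟩ := proj_mem (n := n) (k := n - m) (by omega) (by omega) (n - m)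
      (fun i => (x : Euc n) i) fun i hi => Or.inl hi
    refine hx (near (sqrt_nonneg _) hy ?_)
    rw [sq_sqrt e0, real_inner_comm]
    refine le_trans ?_ h
    refine le_trans (le_of_eq (by ring)) (abs_le_of_sq_le_sq' (a := cos θ) ?_ (nrm_nonneg _)).2
    have e : ∑ i, w i * (x : Euc n) i ^ 2 = (1 - (m : ℝ) / n) -
        ∑ i : {i : Fin n // (i : ℕ) < n - m}, (x : Euc n) i ^ 2 := by
      simp only [hw, sub_mul, Finset.sum_sub_distrib, ← Finset.mul_sum, sq1, mul_one, ite_mul,
        one_mul, zero_mul]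
      rw [← Finset.sum_filter, Finset.sum_subtype (p := fun i : Fin n => (i : ℕ) < n - m) _
        (by simp)]
    rw [nrm_sq, cos_sq']
    rw [e, ht, sa2] at hc
    linarith
  have mo : (PP n).real (nbhd (half n (n - m)) √(2 - 2 * cos θ))ᶜ ≤ _ := measureReal_mono sub
  have sc := sig_compl (nbhd_meas (half n (n - m)) √(2 - 2 * cos θ))
  have key : sig (nbhd (half n (n - m)) √(2 - 2 * cos θ))ᶜ < 1 / 2 := by
    rw [sig, div_lt_iff₀ Z0]
    refine lt_of_le_of_lt mo (lt_of_mul_lt_mul_left (ch.trans_lt ?_) (sq_nonneg t))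
    have M0 : 0 < M4 (ee (0 : Fin n)) / 3 := by
      refine pos_of_mul_pos_left ?_ (show (0 : ℝ) ≤ n ^ 2 + 2 * n by positivity)
      rw [← q1]; exact Z0
    rw [q2, show (volume : Measure (Euc n)).toSphere.real univ = _ from q1]
    have t3 : 4 * (m / n * (1 - m / n)) ≤ n * t ^ 2 := by
      have := mul_le_mul_of_nonneg_left t2 n0.le
      rwa [← mul_assoc, mul_div_cancel₀ _ n0.ne'] at this
    have t5 := mul_le_mul_of_nonneg_left t3 n0.le
    have t6 := mul_pos n0 (pow_pos t0 2)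
    generalize (m : ℝ) / n * (1 - m / n) = g at t5 ⊢
    generalize M4 (ee (0 : Fin n)) / 3 = M at M0 ⊢
    generalize (n : ℝ) = N at t5 t6 ⊢
    generalize t ^ 2 = T at t5 t6 ⊢
    have t4 : 2 * (N * g) < T * (1 / 2 * (N ^ 2 + 2 * N)) := by linarith
    linarith [mul_lt_mul_of_pos_left t4 M0]
  linarith

end Pool.Agent.Lib.T94
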