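import Pool.Agent.Lib.T94.Low

set_option autoImplicit false

/-! The concentration lower bound and the order of `rmax`. -/

namespace Pool.Agent.Lib.T94

open Pool.Agent.Lib.MP_229ad9_gt Set Real Metric Module InnerProductGeometry MeasureTheory

variable {n m : ℕ}

lemma close_ang {A : Set (Sph n)} (hA : A.Nonempty) {x : Sph n} {θ η : ℝ} (h0 : 0 ≤ θ)
    (h1 : θ < η) (h2 : η ≤ π) (hx : x ∈ nbhd A √(2 - 2 * cos θ)) :
    ∃ a ∈ A, angle (x : Euc n) a < η := by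
  obtain ⟨y, hy, h⟩ := close hA hx (t := cos η) (by
    rw [sq_sqrt (by linarith [cos_le_one θ])]
    linarith [cos_lt_cos_of_nonneg_of_le_pi h0 h2 h1])
  refine ⟨y, hy, ?_⟩
  rw [ang _ _ (nrm1 x) (nrm1 y), ← arccos_cos (h0.trans h1.le) h2]
  exact arccos_lt_arccos (neg_one_le_cos _) h (real_inner_le_one_of_norm_eq_one (nrm1 x) (nrm1 y))

theorem low_conc (hm : 1 ≤ m) (hn : m < n) {ε : ℝ} (ε0 : 0 ≤ ε) (ε2 : ε ^ 2 ≤ 2) {j : ℕ}
    (h1 : 1 ≤ j) (h2 : j < n)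
    (h3 : arcsin √((m : ℝ) / n) + arcsin √((j : ℝ) / n) + 7 / √n ≤ arccos (1 - ε ^ 2 / 2)) :
    Good n m ε j := by
  intro A hA
  by_contra hc
  have hB : Transversal j (nbhd A ε)ᶜ := fun W hW => by
    by_contra h
    exact hc ⟨W, hW, fun x hx => by_contra fun h' => h ⟨x, h', hx⟩⟩
  have n0 : (0 : ℝ) < n := by exact_mod_cast (by omega : 0 < n)
  have d0 : 0 < 1 / √(n : ℝ) := by positivity
  have e (c : ℝ) : c / √(n : ℝ) = c * (1 / √(n : ℝ)) := by ring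
  have r1 : arccos (1 - ε ^ 2 / 2) ≤ π / 2 := arccos_le_pi_div_two.2 (by linarith)
  have a0 : 0 ≤ arcsin √((m : ℝ) / n) := arcsin_nonneg.2 (sqrt_nonneg _)
  have b0 : 0 ≤ arcsin √((j : ℝ) / n) := arcsin_nonneg.2 (sqrt_nonneg _)
  rw [e] at h3
  have s1 := big hm hn hA le_rfl (by rw [e]; linarith)
  have s2 := big h1 h2 hB le_rfl (by rw [e]; linarith)
  rw [e] at s1 s2
  generalize 1 / √(n : ℝ) = d at *
  generalize arcsin √((m : ℝ) / n) = a at *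
  generalize arcsin √((j : ℝ) / n) = b at *
  obtain ⟨x, x1, x2⟩ : ∃ x, x ∈ nbhd A √(2 - 2 * cos (a + 3.2 * d)) ∧
      x ∈ nbhd (nbhd A ε)ᶜ √(2 - 2 * cos (b + 3.2 * d)) := by
    by_contra h
    obtain ⟨n', rfl⟩ : ∃ k, n = k + 1 := ⟨n - 1, by omega⟩
    have := sig_compl (nbhd_meas (nbhd A ε)ᶜ √(2 - 2 * cos (b + 3.2 * d)))
    have h' : sig (nbhd A √(2 - 2 * cos (a + 3.2 * d))) ≤
        sig (nbhd (nbhd A ε)ᶜ √(2 - 2 * cos (b + 3.2 * d)))ᶜ :=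
      div_le_div_of_nonneg_right (measureReal_mono fun x hx h' => h ⟨x, hx, h'⟩) measureReal_nonneg
    linarith
  obtain ⟨y, hy, y1⟩ := close_ang (tr_ne hA hn.le) (η := a + 3.5 * d) (by positivity) (by linarith)
    (by linarith [pi_pos]) x1
  obtain ⟨z, hz, z1⟩ := close_ang (tr_ne hB h2.le) (η := b + 3.5 * d) (by positivity) (by linarith)
    (by linarith [pi_pos]) x2
  have t := angle_le_angle_add_angle (z : Euc n) x y
  rw [angle_comm (z : Euc n) x] at t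
  refine hz (near ε0 hy ?_)
  have c1 := cos_angle_mul_norm_mul_norm (z : Euc n) y
  rw [nrm1, nrm1, mul_one, mul_one] at c1
  rw [← c1, ← cos_arccos (x := 1 - ε ^ 2 / 2) (by linarith) (by nlinarith)]
  exact cos_le_cos_of_nonneg_of_le_pi (angle_nonneg _ _) (arccos_le_pi _) (by linarith)

theorem low_all (hn : m < n) {ε : ℝ} (ε0 : 0 ≤ ε) (ε2 : 2 ≤ ε ^ 2) : Good n m ε n := by
  intro A hA
  refine ⟨⊤, by simp, fun x _ => ?_⟩
  have x0 : (x : Euc n) ≠ 0 := norm_ne_zero_iff.1 (by rw [nrm1]; exact one_ne_zero)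
  have h2 := (ℝ ∙ (x : Euc n)).finrank_add_finrank_orthogonal
  rw [finrank_euclideanSpace_fin, finrank_span_singleton x0] at h2
  obtain ⟨V, hV, hd⟩ := sub_dim (m := m) (ℝ ∙ (x : Euc n))ᗮ (by omega)
  obtain ⟨b, hb, hbV⟩ := hA V hd
  refine near ε0 hb ?_
  rw [Submodule.inner_right_of_mem_orthogonal (Submodule.mem_span_singleton_self _) (hV hbV)]
  linarith

lemma good_le (hm : 1 ≤ m) {ε : ℝ} {r : ℕ} (h : Good n m ε r) : r ≤ n := by
  obtain ⟨W, hW, -⟩ := h univ fun V hV => by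
    obtain ⟨w, hw, w0, -⟩ := exists_ker V ∅ (by simp; omega)
    exact ⟨un w w0, trivial, V.smul_mem _ hw⟩
  simpa [hW] using W.finrank_le

lemma le_rmax (hm : 1 ≤ m) {ε : ℝ} {r : ℕ} (h : Good n m ε r) : r ≤ rmax n m ε :=
  le_csSup ⟨n, fun _ h => good_le hm h⟩ h

lemma good_rmax (hm : 1 ≤ m) (ε : ℝ) : Good n m ε (rmax n m ε) :=
  Nat.sSup_mem (s := {r | Good n m ε r}) ⟨0, fun _ _ => ⟨⊥, by simp, fun x hx => by
    have := nrm1 x
    rw [(Submodule.mem_bot ℝ).1 hx] at this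
    simp at this⟩⟩ ⟨n, fun _ h => good_le hm h⟩

theorem low_u (hm : 1 ≤ m) (hn : m < n) {ε : ℝ} (ε0 : 0 ≤ ε) (ε2 : ε ^ 2 ≤ 2) {u : ℝ} (u0 : 0 ≤ u)
    (u1 : u ≤ 1) (k1 : u ≤ arccos (1 - ε ^ 2 / 2) - arcsin √((m : ℝ) / n)) :
    n * u ^ 2 ≤ 200 * (rmax n m ε + 1) := by
  have n0 : (0 : ℝ) < n := by exact_mod_cast (by omega : 0 < n)
  have sn : 0 < √(n : ℝ) := sqrt_pos.2 n0
  have r0 : (0 : ℝ) ≤ rmax n m ε := Nat.cast_nonneg _
  rcases le_total (n * u ^ 2) 196 with h1 | h1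
  · linarith
  have u2 : n * u ^ 2 ≤ n := mul_le_of_le_one_right n0.le (pow_le_one₀ u0 u1)
  have j1 := Nat.floor_le (show 0 ≤ n * u ^ 2 / 10 by positivity)
  have j2 := Nat.lt_floor_add_one (n * u ^ 2 / 10)
  set j := ⌊n * u ^ 2 / 10⌋₊
  have j3 : 1 ≤ j := by
    have : (0 : ℝ) < j := by linarith
    exact_mod_cast this
  have j4 : j < n := by
    have : (j : ℝ) < n := by linarith
    exact_mod_cast this
  have k2 : 7 / √(n : ℝ) ≤ u / 2 := by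
    rw [div_le_iff₀ sn]
    refine (abs_le_of_sq_le_sq' ?_ (by positivity)).2
    rw [mul_pow, sq_sqrt n0.le]; linarith
  have k3 : arcsin √((j : ℝ) / n) ≤ u / 2 := by
    refine (arcsin_le_iff_le_sin' ⟨by linarith [pi_pos], by linarith [pi_gt_three]⟩).2 ?_
    refine le_trans ?_ (mul_le_sin (by linarith) (by linarith [pi_gt_three]))
    refine sqrt_le_iff.2 ⟨by positivity, ?_⟩
    rw [div_le_iff₀ n0, show (2 / π * (u / 2)) ^ 2 * n = n * u ^ 2 / π ^ 2 by field_simp]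
    refine j1.trans (div_le_div_of_nonneg_left (by positivity) (by positivity) ?_)
    nlinarith [pi_lt_d2, pi_pos]
  have := le_rmax hm (low_conc hm hn ε0 ε2 j3 j4 (by linarith))
  have : (j : ℝ) ≤ rmax n m ε := by exact_mod_cast this
  linarith

theorem frame_side (hm : 1 ≤ m) (hn : m < n) {ε : ℝ} (ε0 : 0 ≤ ε) (ε2 : ε ^ 2 < 2) :
    min ((n : ℝ) - m) (1 / (1 - ε ^ 2 / 2) ^ 2) ≤ 2 * (rmax n m ε + 1) := by
  have c0 : 0 < (1 - ε ^ 2 / 2) ^ 2 := pow_pos (by linarith) 2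
  have mn : (m : ℝ) < n := by exact_mod_cast hn
  set g := min ((n : ℝ) - m) (1 / (1 - ε ^ 2 / 2) ^ 2)
  have g0 : 0 ≤ g := le_min (by linarith) (by positivity)
  have j1 := Nat.floor_le (show 0 ≤ g / 2 by positivity)
  have j2 := Nat.lt_floor_add_one (g / 2)
  set j := ⌊g / 2⌋₊
  have g1 : g ≤ n - m := min_le_left _ _
  have g2 : g * (1 - ε ^ 2 / 2) ^ 2 ≤ 1 := (le_div_iff₀ c0).1 (min_le_right _ _)
  have := le_rmax hm (low_frame (j := j) hn.le ε0 (by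
    have : ((2 * j + m : ℕ) : ℝ) ≤ n := by push_cast; linarith
    have : 2 * j + m ≤ n := by exact_mod_cast this
    omega) (le_trans (mul_le_mul_of_nonneg_right (by linarith) c0.le) g2))
  have : (j : ℝ) ≤ rmax n m ε := by exact_mod_cast this
  linarith

theorem dim_side (hm : 1 ≤ m) (hn : m < n) {ε : ℝ} (ε2 : ε ^ 2 < 2) :
    (rmax n m ε : ℝ) + 1 ≤ 2 * (n - m) := by
  have := up_dim hm hn ε2 (good_rmax hm ε)
  have : rmax n m ε + 1 + 2 * m ≤ 2 * n := by omega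
  have : ((rmax n m ε + 1 + 2 * m : ℕ) : ℝ) ≤ (2 * n : ℕ) := by exact_mod_cast this
  push_cast at this
  linarith

theorem all_side (hm : 1 ≤ m) (hn : m < n) {ε : ℝ} (ε0 : 0 ≤ ε) (ε2 : 2 ≤ ε ^ 2) :
    rmax n m ε = n :=
  le_antisymm (good_le hm (good_rmax hm ε)) (le_rmax hm (low_all hn ε0 ε2))

end Pool.Agent.Lib.T94
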