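import Pool.Agent.Lib.T94.Sep

set_option autoImplicit false

/-! The order of `rmax` off the critical window. -/

namespace Pool.Agent.Lib.T94

open Pool.Agent.Lib.MP_229ad9_gt Set Real Metric Module

variable {n m : ℕ} {ε δ c : ℝ}

lemma gap {P Q : ℝ} (P0 : 0 ≤ P) (δ0 : 0 < δ) (δ1 : δ ≤ 1) (h : (1 + δ) * Q ^ 2 ≤ P ^ 2) :
    δ / 4 * P ≤ P - Q := by
  have h1 : Q ≤ (1 - δ / 4) * P := by
    refine (abs_le_of_sq_le_sq' (le_of_mul_le_mul_left (h.trans ?_) (by linarith : 0 < 1 + δ))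
      (mul_nonneg (by linarith) P0)).2
    rw [mul_pow, ← mul_assoc]
    exact le_mul_of_one_le_left (sq_nonneg _) (by nlinarith [mul_pos δ0 δ0, pow_pos δ0 3])
  linarith

lemma trig (hm : 1 ≤ m) (hn : m < n) (c0 : 0 < c) (c1 : c < 1) : ∃ P Q : ℝ, 0 < P ∧ 0 < Q ∧
    n * P ^ 2 = (n - m) * (1 - c ^ 2) ∧ n * Q ^ 2 = m * c ^ 2 ∧
    sin (arccos c - arcsin √((m : ℝ) / n)) = P - Q := by
  have n0 : (0 : ℝ) < n := by exact_mod_cast (by omega : 0 < n)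
  have m0 : (0 : ℝ) < m := by exact_mod_cast hm
  have h1 : (m : ℝ) / n < 1 := (div_lt_one n0).2 (by exact_mod_cast hn)
  have h2 : 0 < 1 - c ^ 2 := by nlinarith
  have h3 : 0 < 1 - (m : ℝ) / n := by linarith
  refine ⟨√(1 - c ^ 2) * √(1 - m / n), c * √(m / n), by positivity, by positivity, ?_, ?_, ?_⟩
  · rw [mul_pow, sq_sqrt h2.le, sq_sqrt h3.le]; field_simp
  · rw [mul_pow, sq_sqrt (by positivity)]; field_simp
  · rw [sin_sub, sin_arccos, cos_arcsin, cos_arccos (by linarith) c1.le, sq_sqrt (by positivity),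
      sin_arcsin (by linarith [sqrt_nonneg ((m : ℝ) / n)]) (sqrt_le_one.2 h1.le)]

lemma fam7 (hn : 2 ≤ n) : ∃ (N : ℕ) (u : Fin N → Euc n), Fam u (7 * √(n * log n)) := by
  have : 0 ≤ n * log n := mul_nonneg (Nat.cast_nonneg _) (log_natCast_nonneg _)
  exact fam hn (by positivity) (by rw [mul_pow, sq_sqrt this]; linarith)

lemma kk (δ0 : 0 < δ) (δ1 : δ ≤ 1) : 3200 ≤ 3200 / δ ∧ 3200 / δ ≤ 3200 / δ ^ 2 ∧
    3200 / δ ^ 2 ≤ 3200 / δ ^ 3 := by
  refine ⟨le_div_self (by norm_num) δ0 δ1, ?_, ?_⟩ <;>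
    exact div_le_div_of_nonneg_left (by norm_num) (by positivity) (by nlinarith [pow_pos δ0 2])

theorem sup_low (hm : 1 ≤ m) (hn : m < n) (ε0 : 0 < ε) (ε2 : ε ^ 2 < 2) (hc : c = 1 - ε ^ 2 / 2)
    (δ0 : 0 < δ) (δ1 : δ ≤ 1) (h : (1 + δ) * (m * c ^ 2) ≤ (n - m) * (1 - c ^ 2)) :
    δ ^ 3 / 3200 * ((n - m) * (1 - c ^ 2)) ≤ rmax n m ε + 1 := by
  have n0 : (0 : ℝ) < n := by exact_mod_cast (by omega : 0 < n)
  obtain ⟨P, Q, P0, Q0, e1, e2, e3⟩ := trig (c := c) hm hn (by linarith) (by nlinarith)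
  have g := gap (Q := Q) P0.le δ0 δ1 (le_of_mul_le_mul_left (by rw [mul_left_comm, e1, e2]; exact h) n0)
  have g0 : 0 < δ / 4 * P := by positivity
  have k : 0 ≤ arccos c - arcsin √((m : ℝ) / n) := by
    by_contra hk
    have := sin_neg_of_neg_of_neg_pi_lt (not_le.1 hk)
      (by linarith [arccos_nonneg c, arcsin_le_pi_div_two √((m : ℝ) / n), pi_pos])
    linarith
  have := low_u hm hn ε0.le ε2.le g0.le (g.trans (e3 ▸ sin_le_one _))
    (hc ▸ g.trans (e3 ▸ sin_le k))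
  rw [← e1]
  nlinarith [mul_le_mul_of_nonneg_right δ1 (show 0 ≤ δ ^ 2 * (n * P ^ 2) by positivity)]

theorem sup_up (hm : 1 ≤ m) (hn : m < n) (ε0 : 0 < ε) (ε2 : ε ^ 2 < 2) (hc : c = 1 - ε ^ 2 / 2)
    (δ0 : 0 < δ) (δ1 : δ ≤ 1) (h : (1 + δ) * (m * c ^ 2) ≤ (n - m) * (1 - c ^ 2))
    (big : min (δ * n) (1200 / δ * √(n * log n)) ≤ max (m : ℝ) (ε ^ 2 * n)) :
    rmax n m ε + 1 ≤ 3200 / δ ^ 3 * ((n - m) * (1 - c ^ 2)) := by
  have m1 : (1 : ℝ) ≤ m := by exact_mod_cast hm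
  have mn : (m : ℝ) < n := by exact_mod_cast hn
  obtain ⟨k1, k2, k3⟩ := kk δ0 δ1
  have d := dim_side hm hn ε2
  have c2 : ε ^ 2 / 2 ≤ 1 - c ^ 2 := by rw [hc]; nlinarith [pow_pos ε0 2]
  set X := ((n : ℝ) - m) * (1 - c ^ 2) with hX
  have X0 : 0 < X := mul_pos (by linarith) (by linarith [pow_pos ε0 2])
  rcases le_total (c ^ 2) (1 / 2) with h1 | h1
  · exact d.trans (le_trans (by nlinarith) (mul_le_mul_of_nonneg_right
      (show 4 ≤ 3200 / δ ^ 3 by linarith) X0.le))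
  have a1 : (m : ℝ) ≤ 2 * X := by nlinarith [mul_nonneg δ0.le (show 0 ≤ m * c ^ 2 by positivity)]
  have a2 : 2 * (m : ℝ) ≤ n := by nlinarith
  have a3 : ε ^ 2 * n ≤ 4 * X := by
    nlinarith [mul_le_mul (show (n : ℝ) / 2 ≤ n - m by linarith) c2 (by positivity) (by linarith)]
  rcases min_le_iff.1 (big.trans (max_le (by linarith) a3)) with b | b
  · refine le_trans ?_ (mul_le_mul_of_nonneg_right (k2.trans k3) X0.le)
    rw [div_mul_eq_mul_div, le_div_iff₀ δ0]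
    nlinarith
  obtain ⟨N, u, hu⟩ := fam7 (n := n) (by omega)
  have L0 := sqrt_nonneg (n * log n)
  have b2 : 1200 * √(n * log n) ≤ 4 * X :=
    (mul_le_mul_of_nonneg_right (le_div_self (by norm_num) δ0 δ1) L0).trans b
  have j1 := Nat.le_ceil (97 * X)
  have j2 := Nat.ceil_lt_add_one (show 0 ≤ 97 * X by positivity)
  have r : (rmax n m ε : ℝ) + 1 ≤ ⌈97 * X⌉₊ := by
    exact_mod_cast sep_one hm hn.le hu (by positivity) (by linarith) (by linarith)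
  exact le_trans (by linarith) (mul_le_mul_of_nonneg_right
    (show 99 ≤ 3200 / δ ^ 3 by linarith) X0.le)

theorem sub_up (hm : 1 ≤ m) (hn : m < n) (ε0 : 0 < ε) (ε2 : ε ^ 2 < 2) (hc : c = 1 - ε ^ 2 / 2)
    (δ0 : 0 < δ) (δ1 : δ ≤ 1) (h : (1 + δ) * ((n - m) * (1 - c ^ 2)) ≤ m * c ^ 2)
    (big : min (δ * n) (1200 / δ * √(n * log n)) ≤ max (m : ℝ) (ε ^ 2 * n)) :
    (rmax n m ε + 1) * c ^ 2 ≤ 3200 / δ ^ 3 := by
  have n0 : (0 : ℝ) < n := by exact_mod_cast (by omega : 0 < n)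
  have m1 : (1 : ℝ) ≤ m := by exact_mod_cast hm
  obtain ⟨k1, k2, k3⟩ := kk δ0 δ1
  have e0 := pow_pos ε0 2
  have c0 : 0 < c := by linarith
  have c1 : c ^ 2 ≤ 1 := pow_le_one₀ c0.le (by linarith)
  rcases le_total (δ / 40 * n) m with h1 | h1
  · rcases Nat.eq_zero_or_pos (rmax n m ε) with h0 | h0
    · rw [h0, Nat.cast_zero]; linarith
    obtain ⟨P, Q, P0, Q0, e1, e2, e3⟩ := trig (c := c) hm hn c0 (by linarith)
    have g := gap (Q := P) Q0.le δ0 δ1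
      (le_of_mul_le_mul_left (by rw [mul_left_comm, e1, e2]; exact h) n0)
    have g0 : 0 < δ / 4 * Q := by positivity
    have k : arccos c < arcsin √((m : ℝ) / n) := by
      by_contra hk
      have := sin_nonneg_of_nonneg_of_le_pi (sub_nonneg.2 (not_lt.1 hk))
        (by linarith [arccos_le_pi c, arcsin_nonneg.2 (sqrt_nonneg ((m : ℝ) / n))])
      linarith
    have u := up_cot hm hn.le ε2.le (good_rmax hm ε) (hc ▸ k) h0
    rw [← hc, ← neg_sub, sin_neg, e3, neg_sub] at u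
    have u2 := (mul_le_mul_of_nonneg_left (pow_le_pow_left₀ g0.le g 2) (by positivity)).trans u
    have u3 : δ / 40 * c ^ 2 ≤ Q ^ 2 := le_of_mul_le_mul_left (by
      rw [e2]; nlinarith [mul_le_mul_of_nonneg_right h1 (sq_nonneg c)]) n0
    rw [le_div_iff₀ (by positivity)]
    nlinarith [mul_le_mul_of_nonneg_left u3
      (show 0 ≤ ((rmax n m ε : ℝ) + 1) * δ ^ 2 by positivity)]
  set γ := δ / 40 with hγ
  have γ0 : 0 < γ := by positivity
  have γ1 : γ ≤ 1 / 40 := by linarith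
  have c2 : 1 - c ^ 2 = ε ^ 2 * (1 - ε ^ 2 / 4) := by rw [hc]; ring
  have a0 : (1 - γ) * n ≤ n - m := by linarith
  have a1 : (1 + δ) * ((1 - γ) * n * (ε ^ 2 * (1 - ε ^ 2 / 4))) ≤ m := by
    refine le_trans ?_ (h.trans (mul_le_of_le_one_right (by linarith) c1))
    rw [c2]
    exact mul_le_mul_of_nonneg_left (mul_le_mul_of_nonneg_right a0
      (mul_nonneg e0.le (by linarith))) (by linarith)
  have en := mul_pos e0 n0
  have a2 : ε ^ 2 * n ≤ 4 * m := by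
    have := mul_le_mul (show 1 / 2 ≤ 1 - γ by linarith) (show 1 / 2 ≤ 1 - ε ^ 2 / 4 by linarith)
      (by norm_num) (by linarith)
    nlinarith [mul_le_mul_of_nonneg_right this en.le,
      mul_nonneg δ0.le (mul_nonneg en.le (le_trans (by norm_num) this))]
  have a3 : ε ^ 2 / 4 ≤ γ := le_of_mul_le_mul_right (by linarith) n0
  have a4 : (1 + δ) * (1 - γ) ^ 2 * (ε ^ 2 * n) ≤ m := by
    refine le_trans ?_ a1
    nlinarith [mul_le_mul_of_nonneg_left (show 1 - γ ≤ 1 - ε ^ 2 / 4 by linarith)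
      (show 0 ≤ (1 + δ) * (1 - γ) * (ε ^ 2 * n) from mul_nonneg
        (mul_nonneg (by linarith) (by linarith)) en.le)]
  have a5 : 1 < (1 - 8 * γ) ^ 2 * ((1 + δ) * (1 - γ) ^ 2) := by
    have b1 : 1 - 9 * γ ≤ (1 - 8 * γ) * (1 - γ) := by nlinarith
    have b2 := pow_le_pow_left₀ (by linarith) b1 2
    have b3 : 1 - 18 * γ ≤ ((1 - 8 * γ) * (1 - γ)) ^ 2 := by nlinarith
    nlinarith [mul_le_mul_of_nonneg_left b3 (show 0 ≤ 1 + δ by linarith)]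
  rcases min_le_iff.1 (big.trans (max_le (by linarith) a2)) with b | b
  · nlinarith [mul_pos δ0 n0]
  obtain ⟨N, u, hu⟩ := fam7 (n := n) (by omega)
  rw [div_mul_eq_mul_div, div_le_iff₀ δ0] at b
  have j2 := Nat.ceil_lt_add_one (show 0 ≤ 1 / γ ^ 2 + 1 by positivity)
  have r : (rmax n m ε : ℝ) + 1 ≤ ⌈1 / γ ^ 2 + 1⌉₊ := by
    exact_mod_cast sep_bdd hm hn.le hu (by positivity) γ0 (by linarith)
      (by nlinarith [mul_pos δ0 (show (0 : ℝ) < m by linarith)]) h1 (Nat.le_ceil _) (by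
        nlinarith [mul_lt_mul_of_pos_right a5 en,
          mul_le_mul_of_nonneg_left a4 (sq_nonneg (1 - 8 * γ))])
  have e : 1 / γ ^ 2 = 3200 / δ ^ 2 / 2 := by rw [hγ]; field_simp; norm_num
  exact (mul_le_of_le_one_right (by positivity) c1).trans (by linarith)

theorem order (hm : 1 ≤ m) (hn : m < n) (ε0 : 0 < ε) (ε2 : ε ^ 2 < 2) (hc : c = 1 - ε ^ 2 / 2)
    (δ0 : 0 < δ) (δ1 : δ ≤ 1)
    (big : min (δ * n) (1200 / δ * √(n * log n)) ≤ max (m : ℝ) (ε ^ 2 * n)) {g : ℝ}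
    (hg : (1 + δ) * (m * c ^ 2) ≤ (n - m) * (1 - c ^ 2) ∧ g = (n - m) * (1 - c ^ 2) ∨
      (1 + δ) * ((n - m) * (1 - c ^ 2)) ≤ m * c ^ 2 ∧ g = min ((n : ℝ) - m) (1 / c ^ 2)) :
    δ ^ 3 / 3200 * g ≤ rmax n m ε + 1 ∧ rmax n m ε + 1 ≤ 3200 / δ ^ 3 * g := by
  rcases hg with ⟨h, rfl⟩ | ⟨h, rfl⟩
  · exact ⟨sup_low hm hn ε0 ε2 hc δ0 δ1 h, sup_up hm hn ε0 ε2 hc δ0 δ1 h big⟩
  obtain ⟨k1, k2, k3⟩ := kk δ0 δ1
  have mn : (m : ℝ) < n := by exact_mod_cast hn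
  have c0 : 0 < c := by linarith
  have f := frame_side hm hn ε0.le ε2
  rw [← hc] at f
  refine ⟨?_, ?_⟩
  · have g0 : 0 ≤ min ((n : ℝ) - m) (1 / c ^ 2) := le_min (by linarith) (by positivity)
    nlinarith [mul_le_mul_of_nonneg_right (pow_le_one₀ δ0.le δ1 (n := 3)) g0]
  rw [mul_min_of_nonneg _ _ (by positivity), mul_one_div]
  exact le_min ((dim_side hm hn ε2).trans (mul_le_mul_of_nonneg_right (by linarith) (by linarith)))
    ((le_div_iff₀ (by positivity)).2 (sub_up hm hn ε0 ε2 hc δ0 δ1 h big))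

end Pool.Agent.Lib.T94
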