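import Pool.Agent.Lib.T94.Up

set_option autoImplicit false

/-! A random family of sign vectors. -/

namespace Pool.Agent.Lib.T94

open Pool.Agent.Lib.MP_229ad9_gt Finset Real Module WithLp
open scoped Classical

section abs

variable {Ω : Type} [Fintype Ω] {R : Ω → Ω → Prop} {p : ℝ}

lemma expo0 (p0 : 0 ≤ p) (hR : ∀ w, (#{v | R v w} : ℝ) ≤ p * Fintype.card Ω) (M N : ℕ)
    (h : N ≤ M) : ∑ u : Fin N → Ω, ∏ i, (if ∃ k, i < k ∧ R (u i) (u k) then (6 : ℝ) else 1) ≤
      (Fintype.card Ω * (1 + 6 * M * p)) ^ N := by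
  induction N with
  | zero => simp
  | succ N ih =>
    have key (u : Fin N → Ω) : ∑ w : Ω, (if ∃ k, R w (u k) then (6 : ℝ) else 1) ≤
        Fintype.card Ω * (1 + 6 * M * p) := by
      calc _ ≤ ∑ w : Ω, (1 + 6 * ∑ k, if R w (u k) then (1 : ℝ) else 0) := by
            refine sum_le_sum fun w _ => ?_
            have h0 (k) (_ : k ∈ univ) : (0 : ℝ) ≤ if R w (u k) then (1 : ℝ) else 0 := by
              positivity
            split_ifs with h1
            · obtain ⟨k, hk⟩ := h1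
              have := single_le_sum h0 (mem_univ k)
              rw [if_pos hk] at this
              linarith
            · linarith [sum_nonneg h0]
        _ = Fintype.card Ω + 6 * ∑ k, (#{v | R v (u k)} : ℝ) := by
            rw [sum_add_distrib, ← mul_sum, sum_comm]; simp
        _ ≤ _ := by
            have h1 := sum_le_card_nsmul univ _ _ fun k _ => hR (u k)
            have h2 : (N : ℝ) ≤ M := by exact_mod_cast (by omega : N ≤ M)
            have h3 := mul_le_mul_of_nonneg_right h2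
              (show 0 ≤ p * Fintype.card Ω by positivity)
            rw [card_univ, Fintype.card_fin, nsmul_eq_mul] at h1
            linarith
    rw [← (Fin.consEquiv fun _ => Ω).sum_comp, Fintype.sum_prod_type_right, pow_succ]
    refine le_trans ?_ (mul_le_mul_of_nonneg_right (ih (by omega)) (by positivity))
    rw [sum_mul]
    refine sum_le_sum fun u _ => le_trans (le_of_eq ?_) (mul_le_mul_of_nonneg_left (key u)
      (prod_nonneg fun i _ => by positivity))
    rw [mul_sum]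
    refine sum_congr rfl fun w _ => ?_
    rw [Fin.prod_univ_succ, mul_comm]
    simp [Fin.exists_fin_succ]

lemma expo (p0 : 0 ≤ p) (hR : ∀ w, (#{v | R v w} : ℝ) ≤ p * Fintype.card Ω) {N : ℕ}
    (h : 6 * N ^ 2 * p ≤ 1) :
    ∑ u : Fin N → Ω, ∏ i, (if ∃ k, i < k ∧ R (u i) (u k) then (6 : ℝ) else 1) ≤
      3 * Fintype.card Ω ^ N := by
  refine (expo0 p0 hR N N le_rfl).trans ?_
  rw [mul_pow, mul_comm]
  refine mul_le_mul_of_nonneg_right ?_ (by positivity)
  refine (pow_le_pow_left₀ (by positivity) ((add_comm _ _).trans_le (add_one_le_exp _)) N).trans ?_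
  rw [← exp_nat_mul]
  exact (exp_le_exp.2 (by linarith)).trans exp_one_lt_three.le

lemma expo' (p0 : 0 ≤ p) (hR : ∀ w, (#{v | R v w} : ℝ) ≤ p * Fintype.card Ω) {N : ℕ}
    (h : 6 * N ^ 2 * p ≤ 1) :
    ∑ u : Fin N → Ω, ∏ i, (if ∃ k, k < i ∧ R (u i) (u k) then (6 : ℝ) else 1) ≤
      3 * Fintype.card Ω ^ N := by
  refine le_trans (le_of_eq ?_) (expo p0 hR h)
  refine Fintype.sum_bijective (fun u => u ∘ Fin.rev)
    (Function.Involutive.bijective fun u => by ext i; simp) _ _ fun u => ?_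
  refine Fintype.prod_bijective Fin.rev Fin.rev_bijective _ _ fun i => if_congr ?_ rfl rfl
  exact ⟨fun ⟨k, h1, h2⟩ => ⟨k.rev, by simpa, by simpa⟩,
    fun ⟨k, h1, h2⟩ => ⟨k.rev, Fin.rev_lt_iff.2 h1, by simpa using h2⟩⟩

lemma fail (p0 : 0 ≤ p) (hR : ∀ w, (#{v | R v w} : ℝ) ≤ p * Fintype.card Ω) {N : ℕ}
    (h : 6 * N ^ 2 * p ≤ 1) (G : Ω → Prop) {q : ℝ} (hG : q * Fintype.card Ω ≤ (#{v | G v} : ℝ)) :
    (#{u : Fin N → Ω | ∀ i, G (u i) → ∃ k ≠ i, R (u i) (u k)} : ℝ) ≤
      7 * exp (-(q * N / 6)) * Fintype.card Ω ^ N := by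
  set θ := exp (-(q * N / 6)) with hθ
  have θ0 : 0 < θ := exp_pos _
  have g1 : ∑ u : Fin N → Ω, ∏ i, (if G (u i) then (1 / 2 : ℝ) else 1) ≤
      θ ^ 3 * Fintype.card Ω ^ N := by
    rw [← Fintype.sum_pow fun v => if G v then (1 / 2 : ℝ) else 1, hθ, ← exp_nat_mul,
      show (3 : ℕ) * -(q * N / 6) = N * -(q / 2) by push_cast; ring, exp_nat_mul, ← mul_pow]
    refine pow_le_pow_left₀ (sum_nonneg fun v _ => by positivity) ?_ N
    have e : ∑ v, (if G v then (1 / 2 : ℝ) else 1) = Fintype.card Ω - 1 / 2 * #{v | G v} := by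
      rw [sum_congr rfl fun v _ => show (if G v then (1 / 2 : ℝ) else 1) =
        1 - 1 / 2 * if G v then 1 else 0 by split_ifs <;> norm_num, sum_sub_distrib, ← mul_sum]
      simp
    have := mul_le_mul_of_nonneg_right (add_one_le_exp (-(q / 2)))
      (show (0 : ℝ) ≤ Fintype.card Ω by positivity)
    rw [e]; linarith
  have g2 := mul_le_mul_of_nonneg_left (expo p0 hR h) θ0.le
  have g3 := mul_le_mul_of_nonneg_left (expo' p0 hR h) θ0.le
  have g4 := mul_le_mul_of_nonneg_left g1 (show 0 ≤ θ⁻¹ ^ 2 by positivity)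
  rw [show θ⁻¹ ^ 2 * (θ ^ 3 * Fintype.card Ω ^ N) = θ * Fintype.card Ω ^ N by field_simp] at g4
  refine le_trans ?_ ((add_le_add (add_le_add g4 g2) g3).trans (le_of_eq (by ring)))
  rw [mul_sum, mul_sum, mul_sum, ← sum_add_distrib, ← sum_add_distrib, ← sum_boole]
  refine sum_le_sum fun u _ => ?_
  have a0 : 0 ≤ ∏ i, (if G (u i) then (1 / 2 : ℝ) else 1) := prod_nonneg fun i _ => by positivity
  have b0 : 0 ≤ ∏ i, (if ∃ k, i < k ∧ R (u i) (u k) then (6 : ℝ) else 1) :=
    prod_nonneg fun i _ => by positivity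
  have c0 : 0 ≤ ∏ i, (if ∃ k, k < i ∧ R (u i) (u k) then (6 : ℝ) else 1) :=
    prod_nonneg fun i _ => by positivity
  split_ifs with hu
  swap
  · positivity
  have e : (1 : ℝ) ≤ (∏ i, (if G (u i) then (1 / 2 : ℝ) else 1)) *
      (∏ i, (if ∃ k, i < k ∧ R (u i) (u k) then (6 : ℝ) else 1)) *
      ∏ i, (if ∃ k, k < i ∧ R (u i) (u k) then (6 : ℝ) else 1) := by
    rw [← prod_mul_distrib, ← prod_mul_distrib, ← prod_const_one (s := (univ : Finset (Fin N)))]
    refine prod_le_prod (fun _ _ => zero_le_one) fun i _ => ?_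
    split_ifs with h1 h2 h3 h3 <;> try norm_num
    obtain ⟨k, k1, k2⟩ := hu i h1
    rcases lt_or_gt_of_ne k1 with k3 | k3
    · exact h3 ⟨k, k3, k2⟩
    · exact h2 ⟨k, k3, k2⟩
  generalize ∏ i, (if G (u i) then (1 / 2 : ℝ) else 1) = a at *
  generalize ∏ i, (if ∃ k, i < k ∧ R (u i) (u k) then (6 : ℝ) else 1) = b at *
  generalize ∏ i, (if ∃ k, k < i ∧ R (u i) (u k) then (6 : ℝ) else 1) = c at *
  have e2 : θ⁻¹ ^ 2 * a * (θ * b) * (θ * c) = a * b * c := by field_simp
  have a1 : 0 ≤ θ⁻¹ ^ 2 * a := by positivity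
  have b1 : 0 ≤ θ * b := by positivity
  have c1 : 0 ≤ θ * c := by positivity
  by_contra hc
  have := mul_lt_one_of_nonneg_of_lt_one_left (mul_nonneg a1 b1)
    (mul_lt_one_of_nonneg_of_lt_one_left a1 (by linarith) (by linarith)) (show θ * c ≤ 1 by linarith)
  linarith

lemma pairs (hs : ∀ v w, R v w → R w v) (p0 : 0 ≤ p)
    (hR : ∀ w, (#{v | R v w} : ℝ) ≤ p * Fintype.card Ω) {N : ℕ} (h : 6 * N ^ 2 * p ≤ 1) :
    (#{u : Fin N → Ω | ∃ i k, i ≠ k ∧ R (u i) (u k)} : ℝ) ≤ 1 / 2 * Fintype.card Ω ^ N := by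
  have g := expo p0 hR h
  suffices 6 * (#{u : Fin N → Ω | ∃ i k, i ≠ k ∧ R (u i) (u k)} : ℝ) ≤ _ by
    linarith [this.trans g]
  rw [← sum_boole, mul_sum]
  refine sum_le_sum fun u _ => ?_
  split_ifs with hu
  swap
  · rw [mul_zero]; exact prod_nonneg fun i _ => by positivity
  obtain ⟨i, k, h1, h2⟩ : ∃ i k, i < k ∧ R (u i) (u k) := by
    obtain ⟨i, k, h1, h2⟩ := hu
    rcases lt_or_gt_of_ne h1 with h3 | h3
    · exact ⟨i, k, h3, h2⟩
    · exact ⟨k, i, h3, hs _ _ h2⟩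
  rw [← mul_prod_erase _ _ (mem_univ i), if_pos ⟨k, h1, h2⟩,
    ← prod_const_one (s := (univ : Finset (Fin N)).erase i)]
  exact mul_le_mul_of_nonneg_left (prod_le_prod (fun _ _ => zero_le_one) fun l _ => by
    split_ifs <;> norm_num) (by norm_num)

end abs

variable {n m : ℕ}

noncomputable def sg (s : Fin n → Bool) : Euc n := toLp 2 fun i => if s i then 1 else -1

lemma sg_sq (s : Fin n → Bool) (i : Fin n) : sg s i ^ 2 = 1 := by
  simp only [sg]; split_ifs <;> norm_num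

lemma sg_norm (s : Fin n → Bool) : ‖sg s‖ ^ 2 = n := by
  simp [EuclideanSpace.real_norm_sq_eq, sg_sq]

lemma mgf (v : Euc n) : ∑ s : Fin n → Bool, exp (inner ℝ v (sg s)) ≤
    exp (‖v‖ ^ 2 / 2) * Fintype.card (Fin n → Bool) := by
  have e : ∑ s : Fin n → Bool, exp (inner ℝ v (sg s)) =
      ∏ i, ∑ b : Bool, exp (v i * if b then 1 else -1) := by
    rw [prod_univ_sum, Fintype.piFinset_univ]
    exact sum_congr rfl fun s _ => by rw [MP_229ad9_gt.inner_sum, exp_sum]; rfl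
  rw [e, EuclideanSpace.real_norm_sq_eq, sum_div, exp_sum, Fintype.card_pi, Nat.cast_prod,
    ← prod_mul_distrib]
  refine prod_le_prod (fun i _ => sum_nonneg fun _ _ => exp_nonneg _) fun i _ => ?_
  have := cosh_le_exp_half_sq (v i)
  rw [cosh_eq] at this
  simp only [Fintype.sum_bool, Fintype.card_bool, if_true, Bool.false_eq_true, if_false, mul_one,
    mul_neg, Nat.cast_ofNat]
  linarith

lemma hoef (hn : 0 < n) (v : Euc n) (hv : ‖v‖ ^ 2 ≤ n) {t : ℝ} (t0 : 0 ≤ t) :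
    (#{s : Fin n → Bool | t ≤ |inner ℝ v (sg s)|} : ℝ) ≤
      2 * exp (-(t ^ 2 / (2 * n))) * Fintype.card (Fin n → Bool) := by
  have n0 : (0 : ℝ) < n := by exact_mod_cast hn
  have l0 : 0 ≤ t / n := by positivity
  have h1 := mgf ((t / n) • v)
  have h2 := mgf (-((t / n) • v))
  rw [norm_neg] at h2
  have h3 : exp (-(t ^ 2 / n)) * exp (‖(t / n) • v‖ ^ 2 / 2) ≤ exp (-(t ^ 2 / (2 * n))) := by
    rw [← exp_add, exp_le_exp, norm_smul, mul_pow, Real.norm_of_nonneg l0]
    have := mul_le_mul_of_nonneg_left hv (sq_nonneg (t / n))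
    rw [show (t / n) ^ 2 * n = t ^ 2 / n by field_simp] at this
    rw [show t ^ 2 / (2 * n) = t ^ 2 / n / 2 by field_simp]
    linarith
  have h4 := mul_le_mul_of_nonneg_left (add_le_add h1 h2) (exp_nonneg (-(t ^ 2 / n)))
  have h5 := mul_le_mul_of_nonneg_right h3
    (show (0 : ℝ) ≤ Fintype.card (Fin n → Bool) by positivity)
  refine le_trans ?_ (h4.trans (by linarith))
  rw [← sum_add_distrib, mul_sum, ← sum_boole]
  refine sum_le_sum fun s _ => ?_
  split_ifs with h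
  swap
  · positivity
  rw [inner_neg_left, real_inner_smul_left, mul_add, ← exp_add, ← exp_add]
  have e : t ^ 2 / n = t / n * t := by ring
  rcases le_abs.1 h with h | h
  · exact le_add_of_le_of_nonneg (one_le_exp (by nlinarith)) (exp_nonneg _)
  · exact le_add_of_nonneg_of_le (exp_nonneg _) (one_le_exp (by nlinarith))

lemma orth (a b : Fin n) : ∑ s : Fin n → Bool, sg s a * sg s b =
    if a = b then (Fintype.card (Fin n → Bool) : ℝ) else 0 := by
  split_ifs with h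
  · subst h
    simp [← sq, sg_sq]
  have := Fintype.sum_bijective (fun s : Fin n → Bool => Function.update s a (!s a))
    (Function.Involutive.bijective fun s => by simp) (fun s => -(sg s a * sg s b))
    (fun s => sg s a * sg s b) fun s => by
      cases h1 : s a <;> cases h2 : s b <;> simp [sg, h1, h2, Function.update_of_ne (Ne.symm h)]
  rw [sum_neg_distrib] at this
  linarith

lemma mean (v : Euc n) : ∑ s : Fin n → Bool, inner ℝ v (sg s) ^ 2 =
    ‖v‖ ^ 2 * Fintype.card (Fin n → Bool) := by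
  have e (s : Fin n → Bool) : inner ℝ v (sg s) ^ 2 = ∑ a, ∑ b, v a * v b * (sg s a * sg s b) := by
    rw [MP_229ad9_gt.inner_sum, sq, sum_mul_sum]
    exact sum_congr rfl fun _ _ => sum_congr rfl fun _ _ => by ring
  rw [sum_congr rfl fun s _ => e s, sum_comm, EuclideanSpace.real_norm_sq_eq, sum_mul]
  refine sum_congr rfl fun a _ => ?_
  rw [sum_comm]
  simp [← mul_sum, orth, sq]

noncomputable def bil (V : Submodule ℝ (Euc n)) (x y : Euc n) : ℝ := inner ℝ (V.starProjection x) y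

lemma bil_comm (V : Submodule ℝ (Euc n)) (x y : Euc n) : bil V x y = bil V y x := by
  rw [bil, bil, V.inner_starProjection_left_eq_right, real_inner_comm]

lemma bil_self (V : Submodule ℝ (Euc n)) (x : Euc n) : bil V x x = ‖V.starProjection x‖ ^ 2 := by
  have := V.starProjection_inner_eq_zero x _ (V.starProjection_apply_mem x)
  rw [inner_sub_left, real_inner_self_eq_norm_sq, real_inner_comm] at this
  rw [bil]; linarith

lemma pr_le (V : Submodule ℝ (Euc n)) (s : Fin n → Bool) : ‖V.starProjection (sg s)‖ ^ 2 ≤ n := by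
  rw [← sg_norm s]
  exact pow_le_pow_left₀ (norm_nonneg _) (V.norm_starProjection_apply_le _) 2

lemma good_many (hn : 0 < n) (V : Submodule ℝ (Euc n)) (hV : finrank ℝ V = m) (hm : 1 ≤ m) :
    1 / n * Fintype.card (Fin n → Bool) ≤
      (#{s : Fin n → Bool | m - 1 ≤ bil V (sg s) (sg s)} : ℝ) := by
  have n0 : (0 : ℝ) < n := by exact_mod_cast hn
  have m1 : (1 : ℝ) ≤ m := by exact_mod_cast hm
  let b := stdOrthonormalBasis ℝ V
  have e (s) : bil V (sg s) (sg s) = ∑ k, inner ℝ (b k : Euc n) (sg s) ^ 2 := by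
    rw [bil_self, V.starProjection_apply, ← Submodule.coe_norm, ← b.sum_sq_inner_right]
    simp only [Submodule.inner_orthogonalProjectionOnto_eq_of_mem_left]
  have e2 : ∑ s : Fin n → Bool, bil V (sg s) (sg s) = m * Fintype.card (Fin n → Bool) := by
    simp only [e]
    rw [sum_comm]
    simp [mean, ← Submodule.coe_norm, b.orthonormal.1, hV]
  have e3 : ∑ s : Fin n → Bool, bil V (sg s) (sg s) ≤ ∑ s : Fin n → Bool,
      ((m - 1 : ℝ) + n * if m - 1 ≤ bil V (sg s) (sg s) then 1 else 0) :=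
    sum_le_sum fun s _ => by
      split_ifs with h
      · have := pr_le V s
        rw [← bil_self] at this
        linarith
      · linarith
  rw [e2, sum_add_distrib, sum_const, ← mul_sum, sum_boole, card_univ, nsmul_eq_mul] at e3
  rw [div_mul_eq_mul_div, div_le_iff₀ n0]
  linarith

lemma bil_exp (V : Submodule ℝ (Euc n)) (x y : Euc n) :
    bil V x y = ∑ a, ∑ b, x a * y b * bil V (ee a) (ee b) := by
  have e (z w : Euc n) : bil V z w = ∑ b, w b * bil V z (ee b) := by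
    simp only [bil, inner_ee]
    rw [MP_229ad9_gt.inner_sum]
    exact sum_congr rfl fun _ _ => mul_comm _ _
  rw [bil_comm, e]
  refine sum_congr rfl fun a _ => ?_
  rw [bil_comm, e, mul_sum]
  exact sum_congr rfl fun _ _ => by ring

lemma bil_near {V W : Submodule ℝ (Euc n)} {η : ℝ} (η0 : 0 < η)
    (h : ∀ a b, ⌊bil V (ee a) (ee b) / η⌋ = ⌊bil W (ee a) (ee b) / η⌋) (s t : Fin n → Bool) :
    |bil V (sg s) (sg t) - bil W (sg s) (sg t)| ≤ n ^ 2 * η := by
  rw [bil_exp V, bil_exp W, ← sum_sub_distrib]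
  refine (abs_sum_le_sum_abs _ _).trans ((sum_le_card_nsmul _ _ (n * η) fun a _ => ?_).trans
    (le_of_eq (by simp; ring)))
  rw [← sum_sub_distrib]
  refine (abs_sum_le_sum_abs _ _).trans ((sum_le_card_nsmul _ _ η fun b _ => ?_).trans
    (le_of_eq (by simp)))
  have := Int.abs_sub_lt_one_of_floor_eq_floor (h a b)
  rw [← sub_div, abs_div, abs_of_pos η0, div_lt_one η0] at this
  have e (s : Fin n → Bool) (a) : |sg s a| = 1 := by
    simp only [sg]; split_ifs <;> norm_num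
  rw [← mul_sub, abs_mul, abs_mul, e, e]
  linarith

/-- a family of vectors which sees every subspace in general position -/
def Fam {N : ℕ} (u : Fin N → Euc n) (t : ℝ) : Prop :=
  (∀ i, ‖u i‖ ^ 2 = n) ∧ (∀ i k, i ≠ k → |inner ℝ (u i) (u k)| ≤ t) ∧
    ∀ V : Submodule ℝ (Euc n), 1 ≤ finrank ℝ V → ∃ i, finrank ℝ V - 2 * t ≤ bil V (u i) (u i) ∧
      ∀ k ≠ i, |bil V (u i) (u k)| ≤ 2 * t

theorem fam (hn : 2 ≤ n) {t : ℝ} (g0 : 0 ≤ t) (H : 44 * n * log n ≤ t ^ 2) :
    ∃ (N : ℕ) (u : Fin N → Euc n), Fam u t := by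
  have n2 : (2 : ℝ) ≤ n := by exact_mod_cast hn
  have n0 : (0 : ℝ) < n := by linarith
  have l2 : 1 / 2 ≤ log n := le_trans (by linarith [log_two_gt_d9]) (log_le_log two_pos n2)
  have g1 : 1 ≤ t := (abs_le_of_sq_le_sq' (by nlinarith) g0).2
  set p := 2 * exp (-(t ^ 2 / (2 * n))) with hp
  have p0 : 0 ≤ p := by positivity
  set N := 18 * n ^ 5 with hN
  have hNp : 6 * (N : ℝ) ^ 2 * p ≤ 1 := by
    have h1 : exp (-(t ^ 2 / (2 * n))) ≤ ((n : ℝ) ^ 22)⁻¹ := by
      rw [exp_neg]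
      refine inv_anti₀ (by positivity) ?_
      rw [← exp_log (show (0 : ℝ) < n ^ 22 by positivity), exp_le_exp, log_pow,
        le_div_iff₀ (by positivity)]
      push_cast; linarith
    have h2 : (2 : ℝ) ^ 12 ≤ n ^ 12 := pow_le_pow_left₀ zero_le_two n2 12
    refine (mul_le_mul_of_nonneg_left (mul_le_mul_of_nonneg_left h1 zero_le_two)
      (by positivity)).trans ?_
    rw [hN, ← mul_assoc, ← div_eq_mul_inv, div_le_one (by positivity)]
    push_cast
    nlinarith [mul_le_mul_of_nonneg_left h2 (show (0 : ℝ) ≤ n ^ 10 by positivity), pow_pos n0 10]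
  have hR (V : Submodule ℝ (Euc n)) (w : Fin n → Bool) :
      (#{v : Fin n → Bool | t ≤ |bil V (sg v) (sg w)|} : ℝ) ≤
        p * Fintype.card (Fin n → Bool) := by
    simp only [bil_comm V _ (sg w)]
    exact hoef (by omega) _ (pr_le V w) g0
  set η := t / n ^ 2 with hη
  have η0 : 0 < η := by positivity
  have η1 : n ^ 2 * η = t := by rw [hη]; field_simp
  set K := (Fintype.piFinset fun _ : Fin n × Fin n => Icc (-(n ^ 2 : ℤ)) (n ^ 2)) ×ˢ Icc 1 n
    with hK
  set F : (Fin n × Fin n → ℤ) × ℕ → Finset (Fin N → Fin n → Bool) := fun κ =>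
    {u | ∃ V : Submodule ℝ (Euc n), finrank ℝ V = κ.2 ∧
      (∀ a b, ⌊bil V (ee a) (ee b) / η⌋ = κ.1 (a, b)) ∧ ∀ i, κ.2 - 2 * t ≤
        bil V (sg (u i)) (sg (u i)) → ∃ k ≠ i, 2 * t < |bil V (sg (u i)) (sg (u k))|} with hF
  have c0 : (0 : ℝ) < Fintype.card (Fin n → Bool) ^ N := by positivity
  have f1 (κ) (hκ : κ ∈ K) :
      (#(F κ) : ℝ) ≤ 7 * exp (-(3 * n ^ 4)) * Fintype.card (Fin n → Bool) ^ N := by
    rcases (F κ).eq_empty_or_nonempty with h | ⟨u0, h⟩
    · rw [h]; simp only [card_empty, Nat.cast_zero]; positivity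
    obtain ⟨W, hW, w1, -⟩ := (mem_filter.1 h).2
    refine le_trans ?_ ((fail (R := fun v w => t ≤ |bil W (sg v) (sg w)|) p0 (hR W) hNp _
      (good_many (by omega) W hW (mem_Icc.1 (mem_product.1 hκ).2).1)).trans (le_of_eq ?_))
    · refine Nat.cast_le.2 (card_le_card fun u hu => mem_filter.2 ⟨mem_univ _, fun i hi => ?_⟩)
      obtain ⟨V, -, v1, v2⟩ := (mem_filter.1 hu).2
      have e := bil_near η0 fun a b => (v1 a b).trans (w1 a b).symm
      rw [η1] at e
      obtain ⟨k, k1, k2⟩ := v2 i (by linarith [(abs_le.1 (e (u i) (u i))).1])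
      exact ⟨k, k1, by linarith [(abs_sub_abs_le_abs_sub _ _).trans (e (u i) (u k))]⟩
    · rw [hN]
      push_cast
      rw [show 1 / n * (18 * (n : ℝ) ^ 5) / 6 = 3 * n ^ 4 by field_simp; ring]
  have f2 : (#K : ℝ) ≤ exp (2 * n ^ 4) * exp n := by
    rw [hK, card_product, Fintype.card_piFinset, prod_const, Int.card_Icc, card_univ,
      Fintype.card_prod, Nat.card_Icc, Nat.add_sub_cancel,
      Fintype.card_fin, show (n ^ 2 : ℤ) + 1 - -(n ^ 2) = (2 * n ^ 2 + 1 : ℕ) by push_cast; ring,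
      Int.toNat_natCast, show 2 * (n : ℝ) ^ 4 = (n * n : ℕ) * (2 * n ^ 2) by push_cast; ring,
      exp_nat_mul]
    push_cast
    exact mul_le_mul (pow_le_pow_left₀ (by positivity) (add_one_le_exp _) _)
      (by linarith [add_one_le_exp (n : ℝ)]) n0.le (by positivity)
  have f3 : (#(K.biUnion F) : ℝ) < 1 / 2 * Fintype.card (Fin n → Bool) ^ N := by
    have h1 : (#(K.biUnion F) : ℝ) ≤ ∑ κ ∈ K, (#(F κ) : ℝ) := by exact_mod_cast card_biUnion_le
    refine (h1.trans (sum_le_card_nsmul _ _ _ f1)).trans_lt ?_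
    rw [nsmul_eq_mul, ← mul_assoc]
    refine mul_lt_mul_of_pos_right ((mul_le_mul_of_nonneg_right f2 (by positivity)).trans_lt ?_) c0
    rw [mul_left_comm, ← exp_add, ← exp_add,
      show 2 * (n : ℝ) ^ 4 + n + -(3 * n ^ 4) = -(n ^ 4 - n) by ring, exp_neg,
      ← div_eq_mul_inv, div_lt_iff₀ (exp_pos _)]
    nlinarith [add_one_le_exp ((n : ℝ) ^ 4 - n), pow_le_pow_left₀ zero_le_two n2 3]
  have f4 := pairs (R := fun v w => t ≤ |bil ⊤ (sg v) (sg w)|)
    (fun v w h => by rwa [bil_comm]) p0 (hR ⊤) hNp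
  obtain ⟨u, -, hu⟩ := exists_mem_notMem_of_card_lt_card (s := K.biUnion F ∪
      ({u | ∃ i k, i ≠ k ∧ t ≤ |bil ⊤ (sg (u i)) (sg (u k))|} :
        Finset (Fin N → Fin n → Bool))) (t := univ) (by
    refine Nat.cast_lt (α := ℝ).1 ((Nat.cast_le.2 (card_union_le _ _)).trans_lt ?_)
    rw [card_univ, Fintype.card_fun, Fintype.card_fin]
    push_cast
    linarith)
  rw [notMem_union] at hu
  refine ⟨N, fun i => sg (u i), fun i => sg_norm _, fun i k h => ?_, fun V hV => ?_⟩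
  · by_contra hc
    exact hu.2 (mem_filter.2 ⟨mem_univ _, i, k, h, by
      simpa [bil, Submodule.starProjection_top] using (not_le.1 hc).le⟩)
  by_contra hc
  refine hu.1 (mem_biUnion.2 ⟨(fun a => ⌊bil V (ee a.1) (ee a.2) / η⌋, finrank ℝ V),
    mem_product.2 ⟨Fintype.mem_piFinset.2 fun a => ?_, mem_Icc.2 ⟨hV, by simpa using V.finrank_le⟩⟩,
    mem_filter.2 ⟨mem_univ _, V, rfl, fun _ _ => rfl,
      fun i hi => by_contra fun h => hc ⟨i, hi, fun k hk => not_lt.1 fun h' => h ⟨k, hk, h'⟩⟩⟩⟩)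
  have b1 : |bil V (ee a.1) (ee a.2)| ≤ 1 := (abs_real_inner_le_norm _ _).trans
    (mul_le_one₀ ((V.norm_starProjection_apply_le _).trans (by simp)) (norm_nonneg _) (by simp))
  have b2 : |bil V (ee a.1) (ee a.2) / η| ≤ n ^ 2 := by
    rw [abs_div, abs_of_pos η0, div_le_iff₀ η0]; linarith
  exact mem_Icc.2 ⟨Int.le_floor.2 (by push_cast; exact (abs_le.1 b2).1),
    Int.cast_le (R := ℝ).1 ((Int.floor_le _).trans (by push_cast; exact (abs_le.1 b2).2))⟩

end Pool.Agent.Lib.T94
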