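import Pool.Agent.Lib.T94.Rand
import Pool.Agent.Lib.T94.Main

set_option autoImplicit false

/-! Pairs of transversal sets far from each other. -/

namespace Pool.Agent.Lib.T94

open Pool.Agent.Lib.MP_229ad9_gt Set Real Metric Module WithLp

variable {n m j N : ℕ} {u : Fin N → Euc n} {t : ℝ}

lemma rmax_lt (hm : 1 ≤ m) (hn : m ≤ n) {A B : Set (Sph n)} (hA : Transversal m A)
    (hB : Transversal j B) {ε τ : ℝ} (h : ∀ a ∈ A, ∀ b ∈ B, inner ℝ (b : Euc n) a ≤ τ)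
    (hτ : τ < 1 - ε ^ 2 / 2) : rmax n m ε < j := by
  by_contra hc
  obtain ⟨W, hW, hs⟩ := good_rmax hm ε A hA
  obtain ⟨V, hV, hd⟩ := sub_dim (m := j) W (by omega)
  obtain ⟨b, hb, hbV⟩ := hB V hd
  obtain ⟨a, ha, h1⟩ := close (tr_ne hA hn) (hs b (hV hbV)) hτ
  exact h1.not_ge (h a ha b hb)

lemma rmax_lt' (hm : 1 ≤ m) (hn : m ≤ n) {A B : Set (Sph n)} (hA : Transversal m A)
    (hB : Transversal j B) {ε D : ℝ} (h : ∀ a ∈ A, ∀ b ∈ B, D ≤ ‖(a : Euc n) - b‖ ^ 2)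
    (hτ : ε ^ 2 < D) : rmax n m ε < j :=
  rmax_lt hm hn hA hB (τ := 1 - D / 2) (fun a ha b hb => by
    have := h a ha b hb
    rw [← dist_eq_norm, dsq, real_inner_comm] at this
    linarith) (by linarith)

def AA (u : Fin N → Euc n) (p q : ℝ) : Set (Sph n) :=
  {x | ∃ i, p ≤ inner ℝ (x : Euc n) (u i) ∧ ∀ k ≠ i, |inner ℝ (x : Euc n) (u k)| ≤ q}

lemma AA_tr (hu : Fam u t) (t0 : 0 ≤ t) {p q : ℝ} (p0 : 0 < p) (h1 : p ^ 2 ≤ m - 2 * t)
    (h2 : 2 * t ≤ q * p) : Transversal m (AA u p q) := by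
  intro V hV
  have m0 : (0 : ℝ) < m := by linarith [pow_pos p0 2]
  obtain ⟨i, i1, i2⟩ := hu.2.2 V (by rw [hV]; exact_mod_cast m0)
  have e := bil_self V (u i)
  have p1 : p ≤ ‖V.starProjection (u i)‖ :=
    (abs_le_of_sq_le_sq' (by rw [hV] at i1; linarith) (norm_nonneg _)).2
  have p2 := p0.trans_le p1
  have e2 (k) : inner ℝ (un _ (norm_pos_iff.1 p2) : Euc n) (u k) =
      ‖V.starProjection (u i)‖⁻¹ * bil V (u i) (u k) := real_inner_smul_left _ _ _
  refine ⟨un _ (norm_pos_iff.1 p2), ⟨i, ?_, fun k hk => ?_⟩,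
    V.smul_mem _ (V.starProjection_apply_mem _)⟩
  · rw [e2, e, sq, inv_mul_cancel_left₀ p2.ne']; exact p1
  · rw [e2, abs_mul, abs_inv, abs_of_pos p2, inv_mul_le_iff₀ p2]
    have q0 : 0 ≤ q := nonneg_of_mul_nonneg_left (by linarith) p0
    nlinarith [i2 k hk]

lemma neg_tr {A : Set (Sph n)} (hA : Transversal m A) : Transversal m {x | -x ∈ A} := by
  intro V hV
  obtain ⟨a, ha, h⟩ := hA V hV
  exact ⟨-a, by simpa using ha, V.neg_mem h⟩

lemma cs (hu : Fam u t) (z : Euc n) (i : Fin N) {d : ℝ} (d0 : 0 ≤ d) (h : d ≤ inner ℝ z (u i)) :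
    d ^ 2 ≤ n * ‖z‖ ^ 2 := by
  rw [← hu.1 i, ← mul_pow, mul_comm]
  exact pow_le_pow_left₀ d0 (h.trans (real_inner_le_norm _ _)) 2

/-- the odd partition -/
theorem sep_one (hm : 1 ≤ m) (hn : m ≤ n) (hu : Fam u t) (t0 : 0 ≤ t) (hj : 6 * t < j) {ε : ℝ}
    (h : 24 * (ε ^ 2 * n) < j) : rmax n m ε < j := by
  have n0 : (0 : ℝ) < n := by exact_mod_cast (by omega : 0 < n)
  have j0 : (0 : ℝ) < j - 2 * t := by linarith
  have p0 := sqrt_pos.2 j0
  have p2 := sq_sqrt j0.le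
  set p := √(j - 2 * t : ℝ)
  obtain ⟨i0, -⟩ := hu.2.2 ⊤ (by simp; omega)
  refine rmax_lt' hm hn (A := {y | ∃ k, ∀ i, inner ℝ (y : Euc n) (u i) ≤ -inner ℝ (y : Euc n) (u k)})
    (fun V hV => ?_) (AA_tr hu t0 p0 p2.le (q := p / 2) (by linarith)) (D := p ^ 2 / 16 / n) ?_ ?_
  · obtain ⟨w, hw, w0, -⟩ := exists_ker V ∅ (by simp; omega)
    obtain ⟨k, -, hk⟩ := Finset.univ.exists_max_image (fun i => |inner ℝ (un w w0 : Euc n) (u i)|)
      ⟨i0, Finset.mem_univ _⟩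
    rcases le_total (inner ℝ (un w w0 : Euc n) (u k)) 0 with h | h
    · exact ⟨un w w0, ⟨k, fun i => (le_abs_self _).trans
        ((hk i (Finset.mem_univ _)).trans (abs_of_nonpos h).le)⟩, V.smul_mem _ hw⟩
    · refine ⟨-un w w0, ⟨k, fun i => ?_⟩, V.neg_mem (V.smul_mem _ hw)⟩
      rw [coe_neg_sphere, inner_neg_left, inner_neg_left, neg_neg]
      exact (neg_le_abs _).trans ((hk i (Finset.mem_univ _)).trans (abs_of_nonneg h).le)
  · rintro y ⟨k, hk⟩ x ⟨i, i1, i2⟩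
    rw [div_le_iff₀' n0, norm_sub_rev, show p ^ 2 / 16 = (p / 4) ^ 2 by ring]
    rcases le_total (inner ℝ (y : Euc n) (u i)) (p / 4 * 3) with h | h
    · exact cs hu _ i (by positivity) (by rw [inner_sub_left]; linarith)
    · have : k ≠ i := fun e => by rw [← e] at h; linarith [hk k]
      exact cs hu _ k (by positivity) (by
        rw [inner_sub_left]; linarith [hk i, (abs_le.1 (i2 k this)).1])
  · rw [lt_div_iff₀ n0]; linarith

lemma flat' (u : Fin N → Euc n) (hj : 1 ≤ j) {σ : ℝ} (σ0 : 0 ≤ σ) : Transversal j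
    {y : Sph n | (∀ i, inner ℝ (y : Euc n) (u i) ≤ σ) ∨
      ∃ S : Finset (Fin N), S.card = j ∧ ∀ k ∈ S, σ ≤ inner ℝ (y : Euc n) (u k)} := by
  intro W hW
  let T : Euc n →ₗ[ℝ] Euc N :=
    { toFun := fun v => toLp 2 fun i => inner ℝ v (u i)
      map_add' := fun _ _ => by ext i; simp [inner_add_left]
      map_smul' := fun _ _ => by ext i; simp [real_inner_smul_left] }
  have e (w : Euc n) (h : w ≠ 0) (i) : inner ℝ (un w h : Euc n) (u i) = ‖w‖⁻¹ * T w i :=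
    real_inner_smul_left _ _ _
  have neg (w) (hw : w ∈ W) (w0 : w ≠ 0) (h : ∀ i, T w i ≤ 0) := (⟨un w w0, Or.inl fun i =>
    (e w w0 i).le.trans ((mul_nonpos_of_nonneg_of_nonpos (by positivity) (h i)).trans σ0),
    W.smul_mem _ hw⟩ : ∃ a ∈ {y : Sph n | (∀ i, inner ℝ (y : Euc n) (u i) ≤ σ) ∨
      ∃ S : Finset (Fin N), S.card = j ∧ ∀ k ∈ S, σ ≤ inner ℝ (y : Euc n) (u k)}, (a : Euc n) ∈ W)
  by_cases hT : ∃ w ∈ W, w ≠ 0 ∧ T w = 0
  · obtain ⟨w, hw, w0, h⟩ := hT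
    exact neg w hw w0 fun i => by simp [h]
  have hd : finrank ℝ (W.map T) = j := by
    rw [← hW, ← LinearMap.range_domRestrict]
    refine LinearMap.finrank_range_of_inj ((injective_iff_map_eq_zero _).2 fun w h => ?_)
    by_contra h0
    exact hT ⟨w, w.2, by simpa using h0, h⟩
  rcases flat_aux (W.map T) (by omega) j hd.ge with ⟨_, ⟨w, hw, rfl⟩, w0, h⟩ |
    ⟨_, ⟨w, hw, rfl⟩, S, k, hS, x1, xS, xk⟩
  · exact neg w hw (fun h0 => w0 (by simp [h0])) h
  have w0 : w ≠ 0 := fun h0 => by simp [h0] at xk; linarith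
  refine ⟨un w w0, ?_, W.smul_mem _ hw⟩
  rcases le_total ‖w‖⁻¹ σ with h | h
  · exact Or.inl fun i => (e w w0 i).le.trans
      ((mul_le_of_le_one_right (by positivity) (x1 i)).trans h)
  · exact Or.inr ⟨S, hS, fun k hk => by rw [e, xS k hk, mul_one]; exact h⟩

/-- bounded dimension for small angles -/
theorem sep_bdd (hm : 1 ≤ m) (hn : m ≤ n) (hu : Fam u t) (t0 : 0 ≤ t) {γ : ℝ} (γ0 : 0 < γ)
    (γ1 : γ ≤ 1 / 8) (h1 : t ≤ γ * m) (h2 : m ≤ γ * n) (hj : 1 / γ ^ 2 + 1 ≤ j) {ε : ℝ}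
    (h : ε ^ 2 * n < (1 - 8 * γ) ^ 2 * m) : rmax n m ε < j := by
  classical
  have n0 : (0 : ℝ) < n := by exact_mod_cast (by omega : 0 < n)
  have m0 : (0 : ℝ) < m := by exact_mod_cast hm
  have s0 := sqrt_pos.2 m0
  have s2 := sq_sqrt m0.le
  set s := √(m : ℝ)
  have j1 : (1 : ℝ) ≤ j := le_trans (le_add_of_nonneg_left (by positivity)) hj
  refine rmax_lt' hm hn (AA_tr hu t0 (p := (1 - 2 * γ) * s) (q := 3 * γ * s)
    (mul_pos (by linarith) s0) ?_ ?_) (flat' u (by exact_mod_cast j1) (σ := 6 * γ * s)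
    (by positivity)) (D := (1 - 8 * γ) ^ 2 * m / n) ?_ ((lt_div_iff₀ n0).2 h)
  · rw [mul_pow, s2]; nlinarith [mul_pos γ0 m0]
  · rw [show 3 * γ * s * ((1 - 2 * γ) * s) = 3 * γ * (1 - 2 * γ) * s ^ 2 by ring, s2]
    nlinarith [mul_pos γ0 m0]
  rintro x ⟨i, i1, i2⟩ y (hy | ⟨S, hS, hy⟩) <;> rw [div_le_iff₀' n0]
  · rw [← s2, ← mul_pow]
    exact cs hu _ i (mul_nonneg (by linarith) s0.le) (by rw [inner_sub_left]; linarith [hy i])
  have q1 : 1 / γ ^ 2 ≤ (S.erase i).card := by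
    have : (j : ℝ) ≤ ((S.erase i).card + 1 : ℕ) := by
      exact_mod_cast hS ▸ Nat.le_add_of_sub_le (Finset.pred_card_le_card_erase)
    push_cast at this
    linarith
  set q : ℝ := ((S.erase i).card : ℝ) with hq
  have q0 : 0 < q := lt_of_lt_of_le (by positivity) q1
  have q2 : 1 ≤ q * γ ^ 2 := (div_le_iff₀ (by positivity)).1 q1
  have a1 : q * (3 * γ * s) ≤ inner ℝ ((y : Euc n) - x) (∑ k ∈ S.erase i, u k) := by
    rw [_root_.inner_sum, hq, ← nsmul_eq_mul]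
    refine Finset.card_nsmul_le_sum _ _ _ fun k hk => ?_
    rw [inner_sub_left]
    linarith [hy k (Finset.mem_of_mem_erase hk), (abs_le.1 (i2 k (Finset.ne_of_mem_erase hk))).2]
  have a2 : ‖∑ k ∈ S.erase i, u k‖ ^ 2 ≤ q * (n + q * t) := by
    rw [← real_inner_self_eq_norm_sq, sum_inner, hq, ← nsmul_eq_mul]
    refine Finset.sum_le_card_nsmul _ _ _ fun k hk => ?_
    rw [_root_.inner_sum]
    calc _ ≤ ∑ l ∈ S.erase i, ((if k = l then (n : ℝ) else 0) + t) :=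
          Finset.sum_le_sum fun l _ => by
            split_ifs with e
            · rw [← e, real_inner_self_eq_norm_sq, hu.1]; linarith
            · linarith [(abs_le.1 (hu.2.1 k l e)).2]
      _ = _ := by rw [Finset.sum_add_distrib, Finset.sum_ite_eq, if_pos hk]; simp
  have a3 := pow_le_pow_left₀ (by positivity) (a1.trans (real_inner_le_norm _ _)) 2
  rw [mul_pow ‖_‖, norm_sub_rev] at a3
  have a4 : q * (n + q * t) ≤ 2 * q ^ 2 * γ ^ 2 * n := by
    have : t ≤ γ ^ 2 * n := by nlinarith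
    nlinarith [mul_le_mul_of_nonneg_left q2 (mul_pos q0 n0).le,
      mul_le_mul_of_nonneg_left this (sq_nonneg q)]
  have a5 := a3.trans (mul_le_mul_of_nonneg_left (a2.trans a4) (sq_nonneg _))
  have a6 : 9 * (m : ℝ) ≤ 2 * (n * ‖(x : Euc n) - y‖ ^ 2) := by
    refine le_of_mul_le_mul_left (le_of_eq_of_le ?_ (a5.trans (le_of_eq (by ring))))
      (show 0 < q ^ 2 * γ ^ 2 by positivity)
    rw [← s2]; ring
  have a7 : (1 - 8 * γ) ^ 2 ≤ 1 := pow_le_one₀ (by linarith) (by linarith)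
  nlinarith

/-- two copies of the family -/
theorem sep_two (hm : 1 ≤ m) (hn : m ≤ n) (hu : Fam u t) (t0 : 0 ≤ t) {p p' q : ℝ} (p0 : 0 < p)
    (p0' : 0 < p') (h1 : p ^ 2 * n ≤ m - 2 * t) (h1' : p' ^ 2 * n ≤ j - 2 * t)
    (h2 : 2 * t ≤ q * p * n) (h2' : 2 * t ≤ q * p' * n) {ε : ℝ}
    (h : √((1 - p ^ 2) * (1 - p' ^ 2)) + 2 * q + t / n < 1 - ε ^ 2 / 2) : rmax n m ε < j := by
  have n0 : (0 : ℝ) < n := by exact_mod_cast (by omega : 0 < n)
  have s0 := sqrt_pos.2 n0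
  have s2 := sq_sqrt n0.le
  set s := √(n : ℝ)
  have q0 : 0 ≤ q := nonneg_of_mul_nonneg_left (nonneg_of_mul_nonneg_left (by linarith) n0) p0
  refine rmax_lt hm hn (AA_tr hu t0 (p := p * s) (q := q * s) (by positivity)
    (by rwa [mul_pow, s2]) (by rw [← s2] at h2; linarith)) (neg_tr (AA_tr hu t0 (p := p' * s)
    (q := q * s) (by positivity) (by rwa [mul_pow, s2]) (by rw [← s2] at h2'; linarith))) ?_ h
  rintro x ⟨i, i1, i2⟩ y ⟨k, k1, k2⟩
  simp only [coe_neg_sphere, inner_neg_left, abs_neg] at k1 k2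
  obtain ⟨v, hv⟩ : ∃ v : Fin N → Euc n, ∀ l, v l = s⁻¹ • u l := ⟨_, fun _ => rfl⟩
  have e (z : Euc n) (l) : inner ℝ z (u l) = inner ℝ z (v l) * s := by
    rw [hv, real_inner_smul_right]; field_simp
  have v1 (l) : inner ℝ (v l) (v l) = 1 := by
    rw [hv, real_inner_smul_right, real_inner_smul_left, real_inner_self_eq_norm_sq, hu.1, ← s2]
    field_simp
  simp only [e, abs_mul, abs_of_pos s0, ← neg_mul, mul_le_mul_iff_left₀ s0] at i1 i2 k1 k2
  have nz (z : Sph n) (l) : ‖(z : Euc n) - inner ℝ (z : Euc n) (v l) • v l‖ ^ 2 =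
      1 - inner ℝ (z : Euc n) (v l) ^ 2 := by
    rw [← real_inner_self_eq_norm_sq, inner_sub_left, inner_sub_right, inner_sub_right,
      real_inner_smul_left, real_inner_smul_left, real_inner_smul_right, real_inner_smul_right, v1,
      real_inner_self_eq_norm_sq, nrm1, real_inner_comm (z : Euc n)]
    ring
  have b1 (z : Sph n) (l) : |inner ℝ (z : Euc n) (v l)| ≤ 1 :=
    (sq_le_one_iff_abs_le_one _).1 (sub_nonneg.1 ((sq_nonneg _).trans (nz z l).le))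
  have c1 : inner ℝ ((y : Euc n) - inner ℝ (y : Euc n) (v k) • v k)
      ((x : Euc n) - inner ℝ (x : Euc n) (v i) • v i) ≤ √((1 - p ^ 2) * (1 - p' ^ 2)) := by
    refine (real_inner_le_norm _ _).trans (le_sqrt_of_sq_le ?_)
    rw [mul_pow, mul_comm]
    refine mul_le_mul ?_ ?_ (sq_nonneg _) ?_
    · rw [nz]; nlinarith
    · rw [nz]; nlinarith
    · nlinarith [(abs_le.1 (b1 x i)).2]
  rw [inner_sub_left, inner_sub_right, inner_sub_right, real_inner_smul_left,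
    real_inner_smul_left, real_inner_smul_right, real_inner_smul_right,
    real_inner_comm (x : Euc n) (v k)] at c1
  have t1 : 0 ≤ t / n := by positivity
  by_cases hik : k = i
  · subst hik
    rw [v1] at c1
    nlinarith
  have d1 : |inner ℝ (v k) (v i)| ≤ t / n := by
    rw [hv, hv, real_inner_smul_right, real_inner_smul_left, ← mul_assoc, abs_mul, ← mul_inv, ← sq, s2,
      abs_of_pos (inv_pos.2 n0), ← div_eq_inv_mul]
    exact div_le_div_of_nonneg_right (hu.2.1 k i hik) n0.le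
  have d2 := (le_abs_self _).trans ((abs_mul _ _).le.trans
    (mul_le_mul (b1 x i) (k2 i (Ne.symm hik)) (abs_nonneg _) zero_le_one))
  have d3 := (le_abs_self _).trans ((abs_mul _ _).le.trans
    (mul_le_mul (b1 y k) (i2 k hik) (abs_nonneg _) zero_le_one))
  have d4 := (neg_le_abs _).trans ((abs_mul _ _).le.trans (mul_le_mul (b1 y k) ((abs_mul _ _).le.trans
    (mul_le_mul (b1 x i) d1 (abs_nonneg _) zero_le_one)) (abs_nonneg _) zero_le_one))
  linarith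

end Pool.Agent.Lib.T94
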