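import Pool.Agent.Lib.T94.Defs
import Pool.Agent.Lib.MP_229ad9_gt.XTube

set_option autoImplicit false

/-! Upper bounds for `rmax`. -/

namespace Pool.Agent.Lib.T94

open Pool.Agent.Lib.MP_229ad9_gt Set Real Metric Module InnerProductGeometry

variable {n m : ℕ}

def Good (n m : ℕ) (ε : ℝ) (r : ℕ) : Prop :=
  ∀ A : Set (Sph n), Transversal m A → ∃ W : Submodule ℝ (Euc n),
    finrank ℝ W = r ∧ ∀ x : Sph n, (x : Euc n) ∈ W → x ∈ nbhd A ε

lemma nrm1 (x : Sph n) : ‖(x : Euc n)‖ = 1 := by simp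

lemma dsq (x a : Sph n) : dist (x : Euc n) a ^ 2 = 2 - 2 * inner ℝ (x : Euc n) a := by
  rw [dist_eq_norm, norm_sub_sq_real, nrm1, nrm1]; ring

lemma near {A : Set (Sph n)} {x a : Sph n} {ε : ℝ} (hε : 0 ≤ ε) (ha : a ∈ A)
    (h : 1 - ε ^ 2 / 2 ≤ inner ℝ (x : Euc n) a) : x ∈ nbhd A ε := by
  refine (infDist_le_dist_of_mem (mem_image_of_mem _ ha)).trans (abs_le_of_sq_le_sq' ?_ hε).2
  rw [dsq]; linarith

lemma close {A : Set (Sph n)} (hA : A.Nonempty) {x : Sph n} {ε t : ℝ}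
    (hx : x ∈ nbhd A ε) (ht : t < 1 - ε ^ 2 / 2) : ∃ a ∈ A, t < inner ℝ (x : Euc n) a := by
  have h1 : ε < √(2 - 2 * t) := lt_sqrt_of_sq_lt (by linarith)
  obtain ⟨_, ⟨a, ha, rfl⟩, h⟩ := (infDist_lt_iff (hA.image _)).1 (lt_of_le_of_lt hx h1)
  refine ⟨a, ha, ?_⟩
  have h2 := pow_lt_pow_left₀ h dist_nonneg two_ne_zero
  rw [dsq, sq_sqrt (by nlinarith [sq_nonneg ε])] at h2
  linarith

lemma sub_dim (U : Submodule ℝ (Euc n)) (h : m ≤ finrank ℝ U) :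
    ∃ V : Submodule ℝ (Euc n), V ≤ U ∧ finrank ℝ V = m := by
  obtain ⟨f, hf⟩ := exists_linearIndependent_of_le_finrank h
  have h1 := hf.map' U.subtype U.ker_subtype
  refine ⟨Submodule.span ℝ (range (U.subtype ∘ f)), Submodule.span_le.2 ?_, ?_⟩
  · rintro _ ⟨i, rfl⟩; exact (f i).2
  · rw [finrank_span_eq_card h1, Fintype.card_fin]

lemma tr_ne {A : Set (Sph n)} (hA : Transversal m A) (hn : m ≤ n) : A.Nonempty := by
  obtain ⟨V, -, hV⟩ := sub_dim (m := m) (⊤ : Submodule ℝ (Euc n)) (by simpa using hn)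
  obtain ⟨a, ha, -⟩ := hA V hV
  exact ⟨a, ha⟩

/-- normalisation of a nonzero vector -/
noncomputable def un (w : Euc n) (h : w ≠ 0) : Sph n :=
  ⟨‖w‖⁻¹ • w, by simp [norm_smul, norm_ne_zero_iff.2 h]⟩

lemma exists_ker (W : Submodule ℝ (Euc n)) (S : Finset (Fin n)) (h : S.card < finrank ℝ W) :
    ∃ w ∈ W, w ≠ 0 ∧ ∀ i ∈ S, w i = 0 := by
  let T : W →ₗ[ℝ] S → ℝ :=
    { toFun := fun v i => v.1 i
      map_add' := fun _ _ => rfl
      map_smul' := fun _ _ => rfl }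
  have hT : LinearMap.ker T ≠ ⊥ := LinearMap.ker_ne_bot_of_finrank_lt (by simpa using h)
  obtain ⟨v, hv, v0⟩ := Submodule.exists_mem_ne_zero_of_ne_bot hT
  exact ⟨v, v.2, by simpa using v0, fun i hi => congrFun (LinearMap.mem_ker.1 hv) ⟨i, hi⟩⟩

lemma flat_aux (W : Submodule ℝ (Euc n)) (h1 : 1 ≤ finrank ℝ W) (j : ℕ) (hj : j ≤ finrank ℝ W) :
    (∃ w ∈ W, w ≠ 0 ∧ ∀ i, w i ≤ 0) ∨ ∃ x ∈ W, ∃ (S : Finset (Fin n)) (k : Fin n), S.card = j ∧
      (∀ i, x i ≤ 1) ∧ (∀ i ∈ S, x i = 1) ∧ x k ≤ -1 := by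
  classical
  induction j with
  | zero =>
    obtain ⟨u, hu, u0, -⟩ := exists_ker W ∅ h1
    obtain ⟨l, hl⟩ : ∃ l, u l ≠ 0 := by
      by_contra hc
      exact u0 (by ext i; simpa using not_exists.1 hc i)
    obtain ⟨k, -, hk⟩ := Finset.univ.exists_max_image (fun i => |u i|) ⟨l, Finset.mem_univ l⟩
    have k0 : 0 < |u k| := (abs_pos.2 hl).trans_le (hk l (Finset.mem_univ l))
    refine Or.inr ⟨(-(u k)⁻¹) • u, W.smul_mem _ hu, ∅, k, rfl, fun i => ?_, by simp, ?_⟩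
    · refine (le_abs_self _).trans ?_
      rw [PiLp.smul_apply, smul_eq_mul, abs_mul, abs_neg, abs_inv, inv_mul_le_iff₀ k0, mul_one]
      exact hk i (Finset.mem_univ i)
    · rw [PiLp.smul_apply, smul_eq_mul, neg_mul, inv_mul_cancel₀ (abs_pos.1 k0)]
  | succ j ih =>
    rcases ih (by omega) with h | ⟨x, hx, S, k, hS, x1, xS, xk⟩
    · exact Or.inl h
    obtain ⟨w, hw, w0, wS, wk⟩ : ∃ w ∈ W, w ≠ 0 ∧ (∀ i ∈ S, w i = 0) ∧ w k ≤ 0 := by
      obtain ⟨w, hw, w0, wS⟩ := exists_ker W S (by omega)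
      rcases le_total (w k) 0 with h | h
      · exact ⟨w, hw, w0, wS, h⟩
      · exact ⟨-w, neg_mem hw, neg_ne_zero.2 w0, fun i hi => by simp [wS i hi], by simpa using h⟩
    by_cases hc : ∀ i, w i ≤ 0
    · exact Or.inl ⟨w, hw, w0, hc⟩
    push Not at hc
    obtain ⟨l, hl, hm⟩ := (Finset.univ.filter fun i => 0 < w i).exists_min_image
      (fun i => (1 - x i) / w i) (by obtain ⟨i, hi⟩ := hc; exact ⟨i, by simpa using hi⟩)
    have l0 : 0 < w l := by simpa using hl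
    have t0 : 0 ≤ (1 - x l) / w l := div_nonneg (by linarith [x1 l]) l0.le
    have lS : l ∉ S := fun h => l0.ne' (wS l h)
    refine Or.inr ⟨x + ((1 - x l) / w l) • w, W.add_mem hx (W.smul_mem _ hw), insert l S, k,
      by rw [Finset.card_insert_of_notMem lS, hS], fun i => ?_, fun i hi => ?_, ?_⟩ <;>
      rw [PiLp.add_apply, PiLp.smul_apply, smul_eq_mul]
    · rcases le_or_gt (w i) 0 with h | h
      · nlinarith [x1 i]
      · have := (le_div_iff₀ h).1 (hm i (by simpa using h))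
        linarith
    · rcases Finset.mem_insert.1 hi with rfl | h
      · rw [div_mul_cancel₀ _ l0.ne']; ring
      · rw [wS i h, xS i h]; ring
    · nlinarith

lemma flat (W : Submodule ℝ (Euc n)) {r : ℕ} (h1 : 1 ≤ r) (hW : finrank ℝ W = r) :
    ∃ x : Sph n, (x : Euc n) ∈ W ∧ ∀ i, (x : Euc n) i ≤ (√(r + 1))⁻¹ := by
  classical
  rcases flat_aux W (by omega) r hW.ge with ⟨w, hw, w0, h⟩ | ⟨x, hx, S, k, hS, x1, xS, xk⟩
  · refine ⟨un w w0, W.smul_mem _ hw, fun i => le_trans ?_ (by positivity : (0 : ℝ) ≤ _)⟩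
    exact mul_nonpos_of_nonneg_of_nonpos (by positivity) (h i)
  have kS : k ∉ S := fun h => by linarith [xS k h]
  have h2 : (r : ℝ) + 1 ≤ ‖x‖ ^ 2 := by
    rw [EuclideanSpace.real_norm_sq_eq]
    refine le_trans ?_ (Finset.sum_le_sum_of_subset_of_nonneg (Finset.subset_univ (insert k S))
      fun _ _ _ => sq_nonneg _)
    rw [Finset.sum_insert kS, Finset.sum_congr rfl fun i hi => show x i ^ 2 = 1 by
      rw [xS i hi]; ring]
    simp only [Finset.sum_const, hS, nsmul_eq_mul, mul_one]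
    nlinarith
  have h3 : √(r + 1) ≤ ‖x‖ := sqrt_le_iff.2 ⟨norm_nonneg _, h2⟩
  have h4 : 0 < √((r : ℝ) + 1) := by positivity
  have x0 : x ≠ 0 := norm_pos_iff.1 (h4.trans_le h3)
  refine ⟨un x x0, W.smul_mem _ hx, fun i => le_trans ?_ (inv_anti₀ h4 h3)⟩
  exact mul_le_of_le_one_right (by positivity) (x1 i)

lemma caps (hm : 1 ≤ m) (hn : m ≤ n) :
    Transversal m {y : Sph n | ∃ i, √((m : ℝ) / n) ≤ (y : Euc n) i} := by
  intro V hV
  have n0 : (0 : ℝ) < n := by exact_mod_cast (by omega : 0 < n)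
  have m0 : (0 : ℝ) < m := by exact_mod_cast hm
  let b := stdOrthonormalBasis ℝ V
  have ob : Orthonormal ℝ fun k => (b k : Euc n) := b.orthonormal.comp_linearIsometry V.subtypeₗᵢ
  have hs : ∑ _i : Fin n, (m : ℝ) / n ≤ ∑ i, ∑ k, (b k : Euc n) i ^ 2 := by
    rw [Finset.sum_comm]
    simp only [← EuclideanSpace.real_norm_sq_eq, ob.1, Finset.sum_const, Finset.card_univ,
      Fintype.card_fin, hV, nsmul_eq_mul]
    field_simp; rfl
  obtain ⟨i, -, hi⟩ := Finset.exists_le_of_sum_le ⟨⟨0, by omega⟩, Finset.mem_univ _⟩ hs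
  set p : Euc n := ∑ k, (b k : Euc n) i • (b k : Euc n) with hp
  have p1 : p i = ∑ k, (b k : Euc n) i ^ 2 := by
    simp [hp, sq]
  have p2 : ‖p‖ ^ 2 = ∑ k, (b k : Euc n) i ^ 2 := by
    rw [← real_inner_self_eq_norm_sq, hp, ob.inner_sum]
    simp [sq]
  have p3 : √((m : ℝ) / n) ≤ ‖p‖ := sqrt_le_iff.2 ⟨norm_nonneg _, by rw [p2]; exact hi⟩
  have p4 : 0 < ‖p‖ := lt_of_lt_of_le (by positivity) p3
  refine ⟨un p (norm_pos_iff.1 p4), ⟨i, p3.trans (le_of_eq ?_)⟩,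
    V.smul_mem _ (V.sum_mem fun k _ => V.smul_mem _ (b k).2)⟩
  show _ = ‖p‖⁻¹ * p i
  rw [p1, ← p2]; field_simp

lemma ang (x y : Euc n) (hx : ‖x‖ = 1) (hy : ‖y‖ = 1) : angle x y = arccos (inner ℝ x y) := by
  rw [angle, hx, hy, mul_one, div_one]

theorem up_cot (hm : 1 ≤ m) (hn : m ≤ n) {ε : ℝ} (ε2 : ε ^ 2 ≤ 2) {r : ℕ}
    (h : Good n m ε r) (hρ : arccos (1 - ε ^ 2 / 2) < arcsin √((m : ℝ) / n)) (h1 : 1 ≤ r) :
    (r + 1) * sin (arcsin √((m : ℝ) / n) - arccos (1 - ε ^ 2 / 2)) ^ 2 ≤ 1 := by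
  set ρ := arccos (1 - ε ^ 2 / 2) with hρ'
  set a := arcsin √((m : ℝ) / n) with ha
  have ρ0 : 0 ≤ ρ := arccos_nonneg _
  have a1 : a ≤ π / 2 := arcsin_le_pi_div_two _
  have hc : cos ρ = 1 - ε ^ 2 / 2 := cos_arccos (by linarith) (by nlinarith)
  by_contra hcon
  have r0 : (0 : ℝ) < r + 1 := by positivity
  have s0 : 0 < sin (a - ρ) := sin_pos_of_pos_of_lt_pi (by linarith) (by linarith [pi_pos])
  have k1 : (√((r : ℝ) + 1))⁻¹ < sin (a - ρ) := by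
    rw [← sqrt_inv, sqrt_lt' s0, inv_lt_iff_one_lt_mul₀' r0]
    exact not_le.1 hcon
  have k2 : arcsin (√((r : ℝ) + 1))⁻¹ < a - ρ :=
    (arcsin_lt_iff_lt_sin' ⟨by linarith [pi_pos], by linarith⟩).2 k1
  set β := arcsin (√((r : ℝ) + 1))⁻¹ with hβ
  have β0 : 0 ≤ β := arcsin_nonneg.2 (by positivity)
  obtain ⟨W, hW, hs⟩ := h _ (caps hm hn)
  obtain ⟨x, hx, hf⟩ := flat W h1 hW
  obtain ⟨y, ⟨i, hi⟩, hy⟩ := close (tr_ne (caps hm hn) hn) (hs x hx) (t := cos (a - β))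
    (by rw [← hc]; exact cos_lt_cos_of_nonneg_of_le_pi ρ0 (by linarith [pi_pos]) (by linarith))
  have e1 : ‖(ee i : Euc n)‖ = 1 := by simp
  have t := angle_le_angle_add_angle (x : Euc n) y (ee i)
  rw [ang _ _ (nrm1 x) e1, ang _ _ (nrm1 y) e1, ang _ _ (nrm1 x) (nrm1 y), inner_ee, inner_ee] at t
  have t1 := arcsin_le_arcsin (hf i)
  have t2 := arcsin_le_arcsin hi
  have t3 : arccos (inner ℝ (x : Euc n) y) < a - β := by
    rw [← arccos_cos (x := a - β) (by linarith) (by linarith [pi_pos])]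
    exact arccos_lt_arccos (neg_one_le_cos _) hy (real_inner_le_one_of_norm_eq_one (nrm1 x) (nrm1 y))
  simp only [arccos] at t t3
  linarith

theorem up_dim (hm : 1 ≤ m) (hn : m < n) {ε : ℝ} (ε2 : ε ^ 2 < 2) {r : ℕ}
    (h : Good n m ε r) : r ≤ n - m := by
  classical
  by_contra hc
  have hk : n - m < n := by omega
  obtain ⟨W, hW, hs⟩ := h _ (half_trans hm hn.le)
  obtain ⟨w, hw, w0, wS, wk⟩ : ∃ w ∈ W, w ≠ 0 ∧ (∀ i ∈ Finset.Iio (⟨n - m, hk⟩ : Fin n), w i = 0) ∧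
      w ⟨n - m, hk⟩ ≤ 0 := by
    obtain ⟨w, hw, w0, wS⟩ := exists_ker W (Finset.Iio ⟨n - m, hk⟩) (by
      rw [Fin.card_Iio, hW]; exact not_le.1 hc)
    rcases le_total (w ⟨n - m, hk⟩) 0 with h | h
    · exact ⟨w, hw, w0, wS, h⟩
    · exact ⟨-w, neg_mem hw, neg_ne_zero.2 w0, fun i hi => by simp [wS i hi], by simpa using h⟩
  obtain ⟨y, hy, h0⟩ := close (half_nonempty hk) (hs (un w w0) (W.smul_mem _ hw)) (t := 0)
    (by linarith)
  refine h0.not_ge ?_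
  show inner ℝ (‖w‖⁻¹ • w) (y : Euc n) ≤ 0
  rw [real_inner_smul_left, inner_sum]
  refine mul_nonpos_of_nonneg_of_nonpos (by positivity) (Finset.sum_nonpos fun i _ => ?_)
  rcases lt_trichotomy (i : ℕ) (n - m) with h | h | h
  · rw [wS i (Finset.mem_Iio.2 h), zero_mul]
  · exact mul_nonpos_of_nonpos_of_nonneg (by rw [show i = ⟨n - m, hk⟩ from Fin.ext h]; exact wk)
      ((hy i).2 h)
  · rw [(hy i).1 h, mul_zero]

end Pool.Agent.Lib.T94
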